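import Pool.Graph.R_pool_sql_team_seeded_3dad9d7b.NH7.GU.ChP

/-!
# Density of the tame primes which can be added: definitions and statements of the parts

`K` is a number field, `p` a prime number, `w` a place above `p`.
-/

set_option autoImplicit false

namespace Pool.Agent.H517.D

open NumberField IsDedekindDomain Filter Topology Pool.Agent.W401.Cheb

section defs

variable {K : Type} [Field K] [NumberField K]

/-- The class of a prime. -/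
noncomputable def cl (w : HeightOneSpectrum (𝓞 K)) : ClassGroup (𝓞 K) :=
  ClassGroup.mk0 ⟨w.asIdeal, mem_nonZeroDivisors_iff_ne_zero.2 w.ne_bot⟩

/-- The condition (`Generates` in the result file). -/
structure Gen (p : ℕ) (S : Finset (HeightOneSpectrum (𝓞 K))) (w : HeightOneSpectrum (𝓞 K)) :
    Prop where
  above : (p : 𝓞 K) ∈ w.asIdeal
  tame : ∀ v ∈ S, (p : 𝓞 K) ∉ v.asIdeal
  classes : ∀ C : ClassGroup (𝓞 K), ∃ m k : ℕ, ¬ p ∣ m ∧ C ^ m = cl w ^ k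
  units : ∃ (e : ℕ) (𝔟 : Ideal (𝓞 K)), w.asIdeal ^ e * 𝔟 = Ideal.span {(p : 𝓞 K)} ∧
    IsCoprime w.asIdeal 𝔟 ∧ ∀ x : 𝓞 K, IsCoprime (Ideal.span {x}) (𝔟 * ∏ v ∈ S, v.asIdeal) →
      ∃ (α y : 𝓞 K) (k : ℕ), Ideal.span {α} = w.asIdeal ^ k ∧
        x * α - y ^ p ∈ 𝔟 ^ 3 * ∏ v ∈ S, v.asIdeal

/-- The elements `α` of `O`, `(α)` a power of `w`, which are congruent to a `p`-th power modulo the
ideal `I`. -/
def Lam (p : ℕ) (w : HeightOneSpectrum (𝓞 K)) (I : Ideal (𝓞 K)) : Set (𝓞 K) :=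
  {α | (∃ k : ℕ, Ideal.span {α} = w.asIdeal ^ k) ∧ ∃ y : 𝓞 K, α - y ^ p ∈ I}

/-- The automorphisms which fix all the `p`-th roots of the elements of `Lam p w I`. -/
def UU (p : ℕ) (w : HeightOneSpectrum (𝓞 K)) (I : Ideal (𝓞 K)) : Subgroup (GK K) where
  carrier := {σ | ∀ β : AlgebraicClosure K,
    (∃ α ∈ Lam p w I, β ^ p = algebraMap (𝓞 K) (AlgebraicClosure K) α) → σ β = β}
  mul_mem' := by
    intro σ τ hσ hτ β hβ
    rw [AlgEquiv.mul_apply, hτ β hβ, hσ β hβ]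
  one_mem' := fun β _ => rfl
  inv_mem' := by
    intro σ hσ β hβ
    have h := hσ β hβ
    calc σ⁻¹ β = σ⁻¹ (σ β) := by rw [h]
      _ = β := by rw [← AlgEquiv.mul_apply, inv_mul_cancel]; rfl

/-- The automorphisms which fix all the `p`-th roots of the elements of `Γ`. -/
def VV (p : ℕ) (Γ : Subgroup Kˣ) : Subgroup (GK K) where
  carrier := {σ | ∀ β : AlgebraicClosure K,
    (∃ γ ∈ Γ, β ^ p = algebraMap K (AlgebraicClosure K) γ) → σ β = β}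
  mul_mem' := by
    intro σ τ hσ hτ β hβ
    rw [AlgEquiv.mul_apply, hτ β hβ, hσ β hβ]
  one_mem' := fun β _ => rfl
  inv_mem' := by
    intro σ hσ β hβ
    have h := hσ β hβ
    calc σ⁻¹ β = σ⁻¹ (σ β) := by rw [h]
      _ = β := by rw [← AlgEquiv.mul_apply, inv_mul_cancel]; rfl

/-- The degree of `K(ζ_p)` over `K`. -/
noncomputable def cyc (p : ℕ) (K : Type) [Field K] : ℕ :=
  Module.finrank K (IntermediateField.adjoin K {ζ : AlgebraicClosure K | ζ ^ p = 1})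

open Classical in
/-- `1` if `K` contains the `p`-th roots of unity, else `0` -/
noncomputable def del (p : ℕ) (K : Type) [Field K] : ℕ :=
  if ∃ ζ : K, IsPrimitiveRoot ζ p then 1 else 0

/-- The `p`-th powers in the multiplicative group of a commutative monoid of units. -/
abbrev pw (G : Type) [CommGroup G] (p : ℕ) : Subgroup G := (powMonoidHom p : G →* G).range

end defs

/-! ### The parts -/

open Classical in
/-- [EQ] -/
def S_eq : Prop := ∀ (K : Type) [Field K] [NumberField K] (p : ℕ) [Fact p.Prime]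
  (S : Finset (HeightOneSpectrum (𝓞 K))) (w : HeightOneSpectrum (𝓞 K)), Gen p S w →
  ∀ (e : ℕ) (𝔟 : Ideal (𝓞 K)), w.asIdeal ^ e * 𝔟 = Ideal.span {(p : 𝓞 K)} →
    IsCoprime w.asIdeal 𝔟 →
  ∀ v : HeightOneSpectrum (𝓞 K), v ∉ S → v ≠ w → (p : 𝓞 K) ∉ v.asIdeal →
    (¬ Gen p (insert v S) w ↔ p ∣ Ideal.absNorm v.asIdeal - 1 ∧
      ∀ α ∈ Lam p w (𝔟 ^ 3 * ∏ u ∈ S, u.asIdeal), ∃ z : 𝓞 K, α - z ^ p ∈ v.asIdeal)

/-- [FR] -/
def S_fr : Prop := ∀ (K : Type) [Field K] [NumberField K] (p : ℕ) [Fact p.Prime]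
  (w : HeightOneSpectrum (𝓞 K)) (I : Ideal (𝓞 K)) (v : HeightOneSpectrum (𝓞 K)), v ≠ w →
  (p : 𝓞 K) ∉ v.asIdeal →
    ((p ∣ Ideal.absNorm v.asIdeal - 1 ∧ ∀ α ∈ Lam p w I, ∃ z : 𝓞 K, α - z ^ p ∈ v.asIdeal) ↔
      ∃ σ ∈ UU p w I, IsFrob v σ)

/-- [NO] -/
def S_no : Prop := ∀ (K : Type) [Field K] [NumberField K] (p : ℕ)
  (w : HeightOneSpectrum (𝓞 K)) (I : Ideal (𝓞 K)), (UU p w I).Normal

/-- [KUM] -/
def S_kum : Prop := ∀ (K : Type) [Field K] [NumberField K] (p : ℕ) [Fact p.Prime]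
  (Γ : Subgroup Kˣ), pw Kˣ p ≤ Γ → (pw Kˣ p).relIndex Γ ≠ 0 →
    IsOpen (VV p Γ : Set (GK K)) ∧ (VV p Γ).index = cyc p K * (pw Kˣ p).relIndex Γ

/-- [RK] -/
def S_rk : Prop := ∀ (K : Type) [Field K] [NumberField K] (p : ℕ) [Fact p.Prime],
  (pw (𝓞 K)ˣ p).index = p ^ (NumberField.Units.rank K + del p K)

/-- [CNT] -/
def S_cnt : Prop := ∀ (K : Type) [Field K] [NumberField K] (p : ℕ) [Fact p.Prime]
  (w : HeightOneSpectrum (𝓞 K)) (I : Ideal (𝓞 K)), I ≠ ⊥ → IsCoprime w.asIdeal I →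
  (∀ x : 𝓞 K, IsCoprime (Ideal.span {x}) I → ∃ (α y : 𝓞 K) (k : ℕ),
    Ideal.span {α} = w.asIdeal ^ k ∧ x * α - y ^ p ∈ I) →
  ∃ Γ : Subgroup Kˣ, pw Kˣ p ≤ Γ ∧ VV p Γ = UU p w I ∧
    (pw Kˣ p).relIndex Γ * (pw (𝓞 K ⧸ I)ˣ p).index = p ^ (NumberField.Units.rank K + 1 + del p K)

/-- [ONE] -/
def S_one : Prop := ∀ (K : Type) [Field K] [NumberField K] (p : ℕ) [Fact p.Prime], p ≠ 2 →
  ∀ (w w' : HeightOneSpectrum (𝓞 K)) (e : ℕ), w.asIdeal ^ e * w'.asIdeal = Ideal.span {(p : 𝓞 K)} →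
    w ≠ w' → Ideal.absNorm w'.asIdeal = p →
  ∀ (α : 𝓞 K) (k : ℕ), Ideal.span {α} = w.asIdeal ^ k → α ^ (p - 1) - 1 ∉ w'.asIdeal ^ 2 →
  ∀ x : 𝓞 K, IsCoprime (Ideal.span {x}) w'.asIdeal → ∃ (α' y : 𝓞 K) (k' : ℕ),
    Ideal.span {α'} = w.asIdeal ^ k' ∧ x * α' - y ^ p ∈ w'.asIdeal ^ 3

end Pool.Agent.H517.D
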