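import Pool.Agent.H517.D.Def
import Pool.Graph.R_seed8.W401.Cheb.Frob

/-!
# Density of the tame primes which can be added: assembly
-/

set_option autoImplicit false

namespace Pool.Agent.H517.D

open NumberField IsDedekindDomain Filter Topology Pool.Agent.W401.Cheb

/-- [NO] -/
theorem s_no : S_no := by
  intro K _ _ p w I
  refine ⟨fun σ hσ τ β hβ => ?_⟩
  obtain ⟨α, hα, h⟩ := hβ
  have h1 : σ (τ⁻¹ β) = τ⁻¹ β := by
    refine hσ _ ⟨α, hα, ?_⟩
    rw [← map_pow, h, IsScalarTower.algebraMap_apply (𝓞 K) K (AlgebraicClosure K)]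
    exact AlgEquiv.commutes _ _
  rw [AlgEquiv.mul_apply, AlgEquiv.mul_apply, h1, ← AlgEquiv.mul_apply, mul_inv_cancel]
  rfl

section

variable {K : Type} [Field K] [NumberField K]

theorem fin_le (N : ℕ) : {v : HeightOneSpectrum (𝓞 K) | Ideal.absNorm v.asIdeal ≤ N}.Finite :=
  Pool.Agent.W352.ChAbs.finite_le N

/-- the prime ideal theorem -/
theorem dens_true : Tendsto (dens fun _ : HeightOneSpectrum (𝓞 K) => True) atTop (𝓝 1) := by
  have h := Pool.Agent.Y142.chebK K (⊤ : Subgroup (GK K)) isOpen_univ Set.univ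
    (fun _ _ _ => Set.mem_univ _) (fun _ _ _ _ => Set.mem_univ _)
  have e : (fun v : HeightOneSpectrum (𝓞 K) => ∃ σ ∈ (Set.univ : Set (GK K)), IsFrob v σ) =
      fun _ => True := by
    funext v
    refine eq_true ?_
    obtain ⟨σ, hσ⟩ := (Pool.Agent.W401.Frob.main K).1 v
    exact ⟨σ, Set.mem_univ _, hσ⟩
  rw [e] at h
  refine h.trans (le_of_eq ?_)
  congr 1
  have h1 : Subsingleton (GK K ⧸ (⊤ : Subgroup (GK K))) := QuotientGroup.subsingleton_quotient_top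
  have h2 : Nat.card (GK K ⧸ (⊤ : Subgroup (GK K))) = 1 := Nat.card_eq_one_iff_unique.2 ⟨h1, ⟨1⟩⟩
  rw [h2, Set.image_univ, QuotientGroup.mk_surjective.range_eq, Set.ncard_univ, h2]
  norm_num

theorem dens_not (P : HeightOneSpectrum (𝓞 K) → Prop) {a : ℝ} (h : Tendsto (dens P) atTop (𝓝 a)) :
    Tendsto (dens fun v => ¬ P v) atTop (𝓝 (1 - a)) := by
  have e : (dens fun v => ¬ P v) = fun N => dens (fun _ : HeightOneSpectrum (𝓞 K) => True) N -
      dens P N := by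
    funext N
    unfold dens
    rw [← sub_div]
    congr 1
    have e : ∀ Q : HeightOneSpectrum (𝓞 K) → Prop,
        Nat.card {v : HeightOneSpectrum (𝓞 K) // Ideal.absNorm v.asIdeal ≤ N ∧ Q v} =
        {v : HeightOneSpectrum (𝓞 K) | Ideal.absNorm v.asIdeal ≤ N ∧ Q v}.ncard := fun Q => rfl
    rw [e, e, e, eq_sub_iff_add_eq, ← Nat.cast_add]
    congr 1
    rw [← Set.ncard_union_eq ?_ ((fin_le N).subset fun v hv => hv.1)
      ((fin_le N).subset fun v hv => hv.1)]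
    · congr 1
      ext v
      simp only [Set.mem_union, Set.mem_ofPred_eq]
      tauto
    · rw [Set.disjoint_left]
      rintro v ⟨_, h1⟩ ⟨_, h2⟩
      exact h1 h2
  rw [e]
  exact dens_true.sub h

/-- the primes with a Frobenius element in an open normal subgroup -/
theorem dens_split (U : Subgroup (GK K)) [U.Normal] (hU : IsOpen (U : Set (GK K))) :
    Tendsto (dens fun v => ∃ σ ∈ U, IsFrob v σ) atTop (𝓝 (1 / (U.index : ℝ))) := by
  have h := Pool.Agent.Y142.chebK K U hU (U : Set (GK K))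
    (fun σ hσ τ => Subgroup.Normal.conj_mem inferInstance σ hσ τ)
    (fun σ hσ u hu => U.mul_mem hσ hu)
  have e : ((QuotientGroup.mk : GK K → GK K ⧸ U) '' (U : Set (GK K))).ncard = 1 := by
    rw [Set.ncard_eq_one]
    refine ⟨1, ?_⟩
    ext x
    constructor
    · rintro ⟨σ, hσ, rfl⟩
      exact (QuotientGroup.eq_one_iff σ).2 hσ
    · intro hx
      rw [Set.mem_singleton_iff] at hx
      exact ⟨1, U.one_mem, hx.symm⟩
  rw [e, Nat.cast_one] at h
  exact h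

/-- uniqueness of the part of `(p)` prime to `w` -/
theorem uniq {w : HeightOneSpectrum (𝓞 K)} {e e' : ℕ} {𝔟 𝔟' : Ideal (𝓞 K)}
    (h : w.asIdeal ^ e * 𝔟 = w.asIdeal ^ e' * 𝔟') (hc : IsCoprime w.asIdeal 𝔟)
    (hc' : IsCoprime w.asIdeal 𝔟') : 𝔟 = 𝔟' := by
  have h1 : w.asIdeal ^ e ∣ w.asIdeal ^ e' :=
    (hc'.pow_left).dvd_of_dvd_mul_right (h ▸ dvd_mul_right _ _)
  have h2 : w.asIdeal ^ e' ∣ w.asIdeal ^ e :=
    (hc.pow_left).dvd_of_dvd_mul_right (h.symm ▸ dvd_mul_right _ _)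
  have h3 := dvd_antisymm h1 h2
  rw [h3] at h
  exact mul_left_cancel₀ (pow_ne_zero _ w.ne_bot) h

end

open Classical in
/-- the density theorem, from the parts -/
theorem dens_gen (h1 : S_eq) (h2 : S_fr) (h3 : S_kum) (h4 : S_cnt)
    (K : Type) [Field K] [NumberField K] (p : ℕ) [hp : Fact p.Prime]
    (S : Finset (HeightOneSpectrum (𝓞 K))) (w : HeightOneSpectrum (𝓞 K)) (hG : Gen p S w)
    (e : ℕ) (𝔟 : Ideal (𝓞 K)) (hab : w.asIdeal ^ e * 𝔟 = Ideal.span {(p : 𝓞 K)})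
    (hcop : IsCoprime w.asIdeal 𝔟) :
    Tendsto (dens fun v => Gen p (insert v S) w) atTop
      (𝓝 (1 - ((pw (𝓞 K ⧸ (𝔟 ^ 3 * ∏ u ∈ S, u.asIdeal))ˣ p).index : ℝ) /
        ((cyc p K : ℝ) * (p : ℝ) ^ (NumberField.Units.rank K + 1 + del p K)))) := by
  set I : Ideal (𝓞 K) := 𝔟 ^ 3 * ∏ u ∈ S, u.asIdeal with hI
  have hp0 : (p : 𝓞 K) ≠ 0 := by exact_mod_cast hp.out.ne_zero
  have hb0 : 𝔟 ≠ ⊥ := by
    rintro rfl
    rw [Ideal.mul_bot] at hab
    exact hp0 (Ideal.span_singleton_eq_bot.1 hab.symm)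
  have hN0 : (∏ u ∈ S, u.asIdeal) ≠ ⊥ := Finset.prod_ne_zero_iff.2 fun v _ => v.ne_bot
  have hI0 : I ≠ ⊥ := by
    rw [hI]
    exact mul_ne_zero (pow_ne_zero 3 hb0) hN0
  have hwS : w ∉ S := fun h => hG.tame w h hG.above
  have hwN : IsCoprime w.asIdeal (∏ u ∈ S, u.asIdeal) := by
    refine IsCoprime.prod_right fun v hv => ?_
    rw [Ideal.isCoprime_iff_sup_eq]
    refine v.isMaximal.1.2 _ (lt_of_le_of_ne le_sup_right fun h4 => hwS ?_)
    have h5 : w.asIdeal ≤ v.asIdeal := by rw [h4]; exact le_sup_left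
    have h6 : w = v := HeightOneSpectrum.ext (w.isMaximal.eq_of_le v.isPrime.ne_top h5)
    rw [h6]
    exact hv
  have hwI : IsCoprime w.asIdeal I := by
    rw [hI]
    exact (hcop.pow_right).mul_right hwN
  -- the units condition
  have hun : ∀ x : 𝓞 K, IsCoprime (Ideal.span {x}) I → ∃ (α y : 𝓞 K) (k : ℕ),
      Ideal.span {α} = w.asIdeal ^ k ∧ x * α - y ^ p ∈ I := by
    obtain ⟨e', 𝔟', hab', hcop', hu⟩ := hG.units
    have hbb : 𝔟' = 𝔟 := uniq (hab'.trans hab.symm) hcop' hcop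
    subst hbb
    intro x hx
    refine hu x ?_
    rw [hI] at hx
    exact (hx.of_mul_right_left.of_isCoprime_of_dvd_right
      (dvd_pow_self 𝔟' three_ne_zero)).mul_right hx.of_mul_right_right
  obtain ⟨Γ, hΓ1, hΓ2, hΓ3⟩ := h4 K p w I hI0 hwI hun
  have hr0 : (pw Kˣ p).relIndex Γ ≠ 0 := by
    intro h0
    rw [h0, zero_mul] at hΓ3
    exact (pow_pos hp.out.pos _).ne hΓ3
  obtain ⟨hopen, hidx⟩ := h3 K p Γ hΓ1 hr0
  rw [hΓ2] at hopen hidx
  have := s_no K p w I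
  have hlim := dens_not _ (dens_split (UU p w I) hopen)
  have hfin : {v : HeightOneSpectrum (𝓞 K) | (p : 𝓞 K) ∈ v.asIdeal}.Finite := by
    refine ((fin_le (K := K) (Ideal.absNorm (Ideal.span {(p : 𝓞 K)}))).subset fun v hv => ?_)
    have h5 : v.asIdeal ∣ Ideal.span {(p : 𝓞 K)} := by
      rw [Ideal.dvd_iff_le, Ideal.span_singleton_le_iff_mem]
      exact hv
    refine Nat.le_of_dvd ?_ (map_dvd Ideal.absNorm h5)
    refine Nat.pos_of_ne_zero fun h6 => hp0 ?_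
    rw [Ideal.absNorm_eq_zero_iff, Ideal.span_singleton_eq_bot] at h6
    exact h6
  have hkey := Pool.Agent.NH7.GU.ChA.dens_congr (S ∪ {w} ∪ hfin.toFinset)
    (P := fun v => ¬ ∃ σ ∈ UU p w I, IsFrob v σ) (P' := fun v => Gen p (insert v S) w) ?_ hlim
  · refine hkey.trans (le_of_eq ?_)
    congr 2
    rw [hidx]
    have h7 : ((pw Kˣ p).relIndex Γ : ℝ) * ((pw (𝓞 K ⧸ I)ˣ p).index : ℝ) =
        (p : ℝ) ^ (NumberField.Units.rank K + 1 + del p K) := by exact_mod_cast hΓ3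
    rw [← h7]
    have h8 : ((pw Kˣ p).relIndex Γ : ℝ) ≠ 0 := by exact_mod_cast hr0
    have h9 : ((pw (𝓞 K ⧸ I)ˣ p).index : ℝ) ≠ 0 := by
      intro h0
      rw [h0, mul_zero] at h7
      exact (pow_pos (by exact_mod_cast hp.out.pos : (0 : ℝ) < p) _).ne h7
    push_cast
    rcases eq_or_ne (cyc p K : ℝ) 0 with hc | hc
    · rw [hc]; simp
    · field_simp
  · intro v hv
    simp only [Finset.mem_union, Finset.mem_singleton, Set.Finite.mem_toFinset,
      Set.mem_ofPred_eq, not_or] at hv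
    rw [← h2 K p w I v hv.1.2 hv.2, ← h1 K p S w hG e 𝔟 hab hcop v hv.1.1 hv.1.2 hv.2, not_not]

end Pool.Agent.H517.D
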