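import Pool.Agent.H517.D.Def

/-!
# The index of the `p`-th powers modulo a product of different primes
-/

set_option autoImplicit false

namespace Pool.Agent.H517.D

open NumberField IsDedekindDomain

theorem pwi_equiv {G H : Type} [CommGroup G] [CommGroup H] (e : G ≃* H) (p : ℕ) :
    (pw G p).index = (pw H p).index := by
  have h : Subgroup.map (e : G →* H) (pw G p) = pw H p := by
    ext x
    constructor
    · rintro ⟨_, ⟨y, rfl⟩, rfl⟩
      exact ⟨e y, (map_pow e y p).symm⟩
    · rintro ⟨y, rfl⟩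
      refine ⟨(e.symm y) ^ p, ⟨e.symm y, rfl⟩, ?_⟩
      show e ((e.symm y) ^ p) = y ^ p
      rw [map_pow, e.apply_symm_apply]
  rw [← h, Subgroup.index_map_equiv]

theorem pwi_prod (G H : Type) [CommGroup G] [CommGroup H] (p : ℕ) :
    (pw (G × H) p).index = (pw G p).index * (pw H p).index := by
  rw [← Subgroup.index_prod]
  congr 1
  ext x
  constructor
  · rintro ⟨y, rfl⟩
    exact ⟨⟨y.1, rfl⟩, ⟨y.2, rfl⟩⟩
  · rintro ⟨⟨y, hy⟩, ⟨z, hz⟩⟩
    exact ⟨(y, z), Prod.ext hy hz⟩

variable {K : Type} [Field K] [NumberField K]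

theorem pwi_prime (p : ℕ) [hp : Fact p.Prime] (v : HeightOneSpectrum (𝓞 K)) :
    (pw (𝓞 K ⧸ v.asIdeal)ˣ p).index =
      if p ∣ Ideal.absNorm v.asIdeal - 1 then p else 1 := by
  letI : Field (𝓞 K ⧸ v.asIdeal) := @Ideal.Quotient.field _ _ v.asIdeal v.isMaximal
  have hfin : Finite (𝓞 K ⧸ v.asIdeal) := Ideal.finiteQuotientOfFreeOfNeBot _ v.ne_bot
  rw [pw, IsCyclic.index_powMonoidHom_range, Nat.card_units]
  have h1 : Nat.card (𝓞 K ⧸ v.asIdeal) = Ideal.absNorm v.asIdeal := rfl
  rw [h1]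
  split_ifs with h
  · exact Nat.gcd_eq_right h
  · exact (Nat.Prime.coprime_iff_not_dvd hp.out).2 h |>.symm

open Classical in
theorem pwi_primes (p : ℕ) [hp : Fact p.Prime] (S : Finset (HeightOneSpectrum (𝓞 K))) :
    (pw (𝓞 K ⧸ (∏ v ∈ S, v.asIdeal))ˣ p).index =
      p ^ (S.filter fun v => p ∣ Ideal.absNorm v.asIdeal - 1).card := by
  induction S using Finset.induction_on with
  | empty =>
    rw [Finset.prod_empty, Finset.filter_empty, Finset.card_empty, pow_zero]
    have h1 : Subsingleton (𝓞 K ⧸ (1 : Ideal (𝓞 K))) := by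
      rw [Ideal.one_eq_top]
      exact Ideal.Quotient.subsingleton_iff.2 rfl
    have h2 : pw (𝓞 K ⧸ (1 : Ideal (𝓞 K)))ˣ p = ⊤ := Subsingleton.elim _ _
    rw [h2, Subgroup.index_top]
  | insert v S hv ih =>
    have hcop : IsCoprime v.asIdeal (∏ u ∈ S, u.asIdeal) := by
      refine IsCoprime.prod_right fun u hu => ?_
      rw [Ideal.isCoprime_iff_sup_eq]
      refine u.isMaximal.1.2 _ (lt_of_le_of_ne le_sup_right fun h4 => hv ?_)
      have h5 : v.asIdeal ≤ u.asIdeal := by rw [h4]; exact le_sup_left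
      have h6 : v = u := HeightOneSpectrum.ext (v.isMaximal.eq_of_le u.isPrime.ne_top h5)
      rw [h6]
      exact hu
    rw [Finset.prod_insert hv,
      pwi_equiv ((Units.mapEquiv (Ideal.quotientMulEquivQuotientProd _ _ hcop).toMulEquiv).trans
        MulEquiv.prodUnits) p, pwi_prod, ih, pwi_prime, Finset.filter_insert]
    split_ifs with h
    · rw [Finset.card_insert_of_notMem fun h' => hv (Finset.mem_of_mem_filter v h'), pow_succ']
    · rw [one_mul]

end Pool.Agent.H517.D
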