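import Pool.Agent.H517.D.Fin
import Pool.Agent.H517.D.Idx

/-!
# Densities relative to all primes
-/

set_option autoImplicit false

namespace Pool.Agent.H517.D

open NumberField IsDedekindDomain Filter Topology Pool.Agent.W401.Cheb

variable {K : Type} [Field K] [NumberField K]

/-- the density among all primes -/
theorem rel_dens {P : HeightOneSpectrum (𝓞 K) → Prop} {a : ℝ} (h : Tendsto (dens P) atTop (𝓝 a)) :
    Tendsto (fun N : ℕ => (Nat.card {v : HeightOneSpectrum (𝓞 K) //
      Ideal.absNorm v.asIdeal ≤ N ∧ P v} : ℝ) /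
        (Nat.card {v : HeightOneSpectrum (𝓞 K) // Ideal.absNorm v.asIdeal ≤ N} : ℝ)) atTop (𝓝 a) := by
  have h1 := h.div (dens_true (K := K)) one_ne_zero
  rw [div_one] at h1
  refine h1.congr' ?_
  filter_upwards [eventually_ge_atTop 2] with N hN
  show dens P N / dens (fun _ => True) N = _
  unfold dens
  have h2 : (Nat.primeCounting N : ℝ) ≠ 0 := by
    have h3 : 0 < Nat.primeCounting N := by
      have h4 := Nat.monotone_primeCounting hN
      have h5 : Nat.primeCounting 2 = 1 := by decide
      omega
    exact_mod_cast h3.ne'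
  rw [div_div_div_cancel_right₀ h2]
  congr 2
  exact Nat.card_congr (Equiv.subtypeEquivRight fun v => by simp)

end Pool.Agent.H517.D
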