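import Pool.Agent.H517.D.Def

/-!
# Density of the tame primes which can be added: part CNT
-/

set_option autoImplicit false
set_option linter.unusedSectionVars false

namespace Pool.Agent.H517.D

open NumberField IsDedekindDomain Filter Topology Pool.Agent.W401.Cheb


/-

CNT. (S_rk may be used as hypothesis: prove `S_rk → S_cnt`.) The class group is finite, so there is a least h ≥ 1 with w^h principal; let (π) = w^h, π ∈ 𝓞 K, π ≠ 0. If w^k is principal (k ∈ ℕ) then h ∣ k. So the α ∈ 𝓞 K with (α) = w^k for some k are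
exactly the u π^n, u ∈ (𝓞 K)ˣ, n ∈ ℕ. Let A := (𝓞 K)ˣ × Multiplicative ℤ, ψ : A →* Kˣ, (u, n) ↦ u π^n.
(1) index of pw A p in A is p^(rank + δ) * p (product; or A/A^p → ...), by S_rk.
(2) ψ(a) ∈ (Kˣ)^p implies a ∈ A^p: u π^n = γ^p; the fractional ideal: valuations at v ≠ w of γ are trivial, at w: v_w(γ) = n h / p. So (γ) = w^(n h / p) as a fractional ideal, principal, so h ∣ n h / p
(for negative exponents take the inverse), i.e. p ∣ n, and γ π^(-n/p) has trivial valuation everywhere, so it is a unit u' of 𝓞 K (see `exists_unit` in NH7/GU/UntP.lean), u = u'^p. (Possible shortcut: multiply by powers of π^p to be in the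
integral situation: γ^p = u π^n with n ≥ 0, γ integral over 𝓞 K so γ ∈ 𝓞 K, (γ)^p = w^(n h), so (γ) = w^m with m p = n h by unique factorization, (γ) principal so h ∣ m, m = h m', n = p m', and γ = u' π^m'.)
(3) π is a unit modulo I (w coprime to I), so there is a homomorphism Φ : A →* (𝓞 K ⧸ I)ˣ ⧸ p-th powers, (u, n) ↦ class of u * π^n. It is surjective by the hypothesis: a unit of 𝓞 K ⧸ I is the class of some x coprime to I; the hypothesis gives α = u π^n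
and y with x α ≡ y^p mod I, so the class of x is Φ((u, n)⁻¹) [y is a unit modulo I since y^p is]. So (ker Φ).index = (pw (𝓞 K ⧸ I)ˣ p).index, pw A p ≤ ker Φ and (pw A p).relIndex (ker Φ) * (ker Φ).index = (pw A p).index = p^(rank + 1 + δ).
(4) Γ := (ker Φ).map ψ ⊔ pw Kˣ p. (pw Kˣ p).relIndex Γ = (pw A p).relIndex (ker Φ) by (2): (Γ/(Kˣ)^p ≅ ker Φ / A^p.)
(5) VV p Γ = UU p w I: if α = u π^n ∈ Lam p w I (n ≥ 0), α ≡ y^p mod I, then α is a unit mod I, so y too and (u, n) ∈ ker Φ, so α ∈ Γ. Conversely, if γ = ψ(u, n) δ^p ∈ Γ, β^p = γ, (u, n) ∈ ker Φ, let m ∈ ℕ with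
n + p m ≥ 0 and β' = β π^m δ⁻¹; β'^p = u π^(n + p m) =: α, α is congruent to a p-th power mod I (since its class is Φ(u, n) = 1, lift y to 𝓞 K), so α ∈ Lam, σ β' = β' iff σ β = β.

-/

section cnt

set_option linter.unusedSectionVars false

variable {K : Type} [Field K] [NumberField K]

theorem pr_iff (w : HeightOneSpectrum (𝓞 K)) (k : ℕ) :
    (w.asIdeal ^ k).IsPrincipal ↔ orderOf (cl w) ∣ k := by
  rw [orderOf_dvd_iff_pow_eq_one, cl, ← map_pow, SubmonoidClass.mk_pow, ClassGroup.mk0_eq_one_iff]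

theorem exP (w : HeightOneSpectrum (𝓞 K)) : ∃ (h : ℕ) (π : 𝓞 K), h ≠ 0 ∧ π ≠ 0 ∧
    Ideal.span {π} = w.asIdeal ^ h ∧
    ∀ (k : ℕ) (α : 𝓞 K), Ideal.span {α} = w.asIdeal ^ k → h ∣ k := by
  obtain ⟨π, hπ⟩ := ((pr_iff w (orderOf (cl w))).2 dvd_rfl).principal
  refine ⟨orderOf (cl w), π, (orderOf_pos _).ne', ?_, hπ.symm, fun k α hα => ?_⟩
  · rintro rfl
    have h1 : w.asIdeal ^ orderOf (cl w) = ⊥ := by
      rw [hπ]
      exact Ideal.span_singleton_eq_bot.2 rfl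
    exact pow_ne_zero _ w.ne_bot h1
  · exact (pr_iff w k).1 ⟨⟨α, hα.symm⟩⟩

theorem lemB {w : HeightOneSpectrum (𝓞 K)} {h : ℕ} {π : 𝓞 K}
    (hπ : Ideal.span {π} = w.asIdeal ^ h)
    (hh : ∀ (k : ℕ) (α : 𝓞 K), Ideal.span {α} = w.asIdeal ^ k → h ∣ k) {α : 𝓞 K} {k : ℕ}
    (hα : Ideal.span {α} = w.asIdeal ^ k) : ∃ (u : (𝓞 K)ˣ) (n : ℕ), α = u * π ^ n ∧ k = h * n := by
  obtain ⟨n, rfl⟩ := hh k α hα
  rw [pow_mul, ← hπ, Ideal.span_singleton_pow, Ideal.span_singleton_eq_span_singleton] at hα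
  obtain ⟨u, hu⟩ := hα.symm
  exact ⟨u, n, by rw [← hu, mul_comm], rfl⟩

theorem lemC {w : HeightOneSpectrum (𝓞 K)} {h : ℕ} {π : 𝓞 K} (h0 : h ≠ 0) (π0 : π ≠ 0)
    (hπ : Ideal.span {π} = w.asIdeal ^ h)
    (hh : ∀ (k : ℕ) (α : 𝓞 K), Ideal.span {α} = w.asIdeal ^ k → h ∣ k) {p : ℕ} (p0 : p ≠ 0)
    {u : (𝓞 K)ˣ} {N : ℕ} {g : 𝓞 K} (hg : g ^ p = u * π ^ N) :
    ∃ (u' : (𝓞 K)ˣ) (n' : ℕ), N = p * n' ∧ u = u' ^ p := by
  have e1 : Ideal.span {g} ^ p = w.asIdeal ^ (h * N) := by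
    rw [Ideal.span_singleton_pow, hg, pow_mul, ← hπ, Ideal.span_singleton_pow,
      Ideal.span_singleton_eq_span_singleton]
    exact ⟨u⁻¹, by rw [mul_comm, ← mul_assoc, Units.inv_mul, one_mul]⟩
  obtain ⟨i, -, hi⟩ := (dvd_prime_pow w.prime (h * N)).1
    ((dvd_pow_self (Ideal.span {g}) p0).trans e1.dvd)
  have hi' : Ideal.span {g} = w.asIdeal ^ i := associated_iff_eq.1 hi
  have e2 : w.asIdeal ^ (i * p) = w.asIdeal ^ (h * N) := by rw [pow_mul, ← hi', e1]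
  have e3 : i * p = h * N :=
    pow_injective_of_not_isUnit w.prime.not_isUnit w.prime.ne_zero e2
  obtain ⟨u', n', hg', rfl⟩ := lemB hπ hh hi'
  have e4 : N = p * n' := by
    have : h * (p * n') = h * N := by rw [← e3]; ring
    exact (Nat.eq_of_mul_eq_mul_left (Nat.pos_of_ne_zero h0) this).symm
  refine ⟨u', n', e4, ?_⟩
  apply Units.ext
  have e5 : (u : 𝓞 K) * π ^ N = (u' : 𝓞 K) ^ p * π ^ N := by
    rw [← hg, hg', mul_pow, ← pow_mul, e4, mul_comm n' p]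
  rw [Units.val_pow_eq_pow_val]
  exact mul_right_cancel₀ (pow_ne_zero _ π0) e5

theorem idx_prod (p : ℕ) (U : Type) [CommGroup U] :
    (pw (U × Multiplicative ℤ) p).index = (pw U p).index * p := by
  have e1 : pw (U × Multiplicative ℤ) p = (pw U p).prod (pw (Multiplicative ℤ) p) := by
    ext ⟨a, b⟩
    rw [Subgroup.mem_prod]
    constructor
    · rintro ⟨⟨c, d⟩, hcd⟩
      exact ⟨⟨c, congrArg Prod.fst hcd⟩, ⟨d, congrArg Prod.snd hcd⟩⟩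
    · rintro ⟨⟨c, hc⟩, ⟨d, hd⟩⟩
      exact ⟨⟨c, d⟩, Prod.ext hc hd⟩
  have e2 : pw (Multiplicative ℤ) p = AddSubgroup.toSubgroup (AddSubgroup.zmultiples (p : ℤ)) := by
    ext a
    constructor
    · rintro ⟨d, hd⟩
      refine ⟨Multiplicative.toAdd d, ?_⟩
      have := congrArg Multiplicative.toAdd hd
      simp only [powMonoidHom_apply, toAdd_pow] at this
      simp only [smul_eq_mul] at this ⊢
      rw [mul_comm]
      exact this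
    · rintro ⟨d, hd⟩
      refine ⟨Multiplicative.ofAdd d, ?_⟩
      apply Multiplicative.toAdd.injective
      simp only [powMonoidHom_apply, toAdd_pow, toAdd_ofAdd, nsmul_eq_mul]
      simp only [smul_eq_mul] at hd
      rw [mul_comm]
      exact hd
  rw [e1, Subgroup.index_prod, e2, AddSubgroup.index_toSubgroup, Int.index_zmultiples,
    Int.natAbs_natCast]


/-- `(u, n) ↦ u π ^ n` in `K` -/
noncomputable def psi (πK : Kˣ) : (𝓞 K)ˣ × Multiplicative ℤ →* Kˣ :=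
  (Units.map (algebraMap (𝓞 K) K : 𝓞 K →* K)).coprod (zpowersHom Kˣ πK)

/-- `(u, n) ↦ u π ^ n` in `𝓞 K ⧸ I` -/
noncomputable def phi (I : Ideal (𝓞 K)) (πI : (𝓞 K ⧸ I)ˣ) :
    (𝓞 K)ˣ × Multiplicative ℤ →* (𝓞 K ⧸ I)ˣ :=
  (Units.map (Ideal.Quotient.mk I : 𝓞 K →* 𝓞 K ⧸ I)).coprod (zpowersHom _ πI)

theorem psi_apply (πK : Kˣ) (u : (𝓞 K)ˣ) (n : Multiplicative ℤ) : psi πK (u, n) =
    Units.map (algebraMap (𝓞 K) K : 𝓞 K →* K) u * πK ^ Multiplicative.toAdd n := rfl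

theorem phi_apply (I : Ideal (𝓞 K)) (πI : (𝓞 K ⧸ I)ˣ) (u : (𝓞 K)ˣ) (n : Multiplicative ℤ) :
    phi I πI (u, n) =
    Units.map (Ideal.Quotient.mk I : 𝓞 K →* 𝓞 K ⧸ I) u * πI ^ Multiplicative.toAdd n := rfl

theorem shift {G : Type} [CommGroup G] (a x : G) (n : ℤ) (m N p : ℕ)
    (hN : (N : ℤ) = n + p * m) : a * x ^ n * (x ^ m) ^ p = a * x ^ N := by
  rw [← zpow_natCast x N, hN, zpow_add, mul_assoc, mul_comm (p : ℤ) (m : ℤ), zpow_mul,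
    zpow_natCast, zpow_natCast]

theorem psi_shift {π : 𝓞 K} {πK : Kˣ} (hπK : (πK : K) = algebraMap (𝓞 K) K π) (u : (𝓞 K)ˣ)
    (n : Multiplicative ℤ) (m N p : ℕ) (hN : (N : ℤ) = Multiplicative.toAdd n + p * m) :
    ((psi πK (u, n) * (πK ^ m) ^ p : Kˣ) : K) = algebraMap (𝓞 K) K (u * π ^ N) := by
  rw [psi_apply, shift _ _ _ _ _ _ hN, Units.val_mul, Units.val_pow_eq_pow_val, hπK, map_mul,
    map_pow]
  rfl

theorem phi_shift {I : Ideal (𝓞 K)} {π : 𝓞 K} {πI : (𝓞 K ⧸ I)ˣ}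
    (hπI : (πI : 𝓞 K ⧸ I) = Ideal.Quotient.mk I π) (u : (𝓞 K)ˣ)
    (n : Multiplicative ℤ) (m N p : ℕ) (hN : (N : ℤ) = Multiplicative.toAdd n + p * m) :
    ((phi I πI (u, n) * (πI ^ m) ^ p : (𝓞 K ⧸ I)ˣ) : 𝓞 K ⧸ I) =
      Ideal.Quotient.mk I (u * π ^ N) := by
  rw [phi_apply, shift _ _ _ _ _ _ hN, Units.val_mul, Units.val_pow_eq_pow_val, hπI, map_mul,
    map_pow]
  rfl

theorem exN (n : ℤ) {p : ℕ} (p0 : p ≠ 0) : ∃ m N : ℕ, (N : ℤ) = n + p * m := by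
  refine ⟨n.natAbs, (n + p * n.natAbs).toNat, ?_⟩
  rw [Int.toNat_of_nonneg]
  have h1 : (1 : ℤ) ≤ p := by exact_mod_cast Nat.pos_of_ne_zero p0
  have h2 : -n ≤ n.natAbs := by omega
  nlinarith [Int.natCast_nonneg n.natAbs]

theorem isU {I : Ideal (𝓞 K)} {x : 𝓞 K} (h : IsCoprime (Ideal.span {x}) I) :
    IsUnit (Ideal.Quotient.mk I x) := by
  obtain ⟨i, hi, j, hj, hij⟩ := Ideal.isCoprime_iff_exists.1 h
  obtain ⟨c, rfl⟩ := Ideal.mem_span_singleton'.1 hi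
  refine IsUnit.of_mul_eq_one (Ideal.Quotient.mk I c) ?_
  rw [← map_mul, ← map_one (Ideal.Quotient.mk I), Ideal.Quotient.mk_eq_mk_iff_sub_mem, ← hij]
  have : x * c - (c * x + j) = -j := by ring
  rw [this]
  exact I.neg_mem hj

theorem isU' {I : Ideal (𝓞 K)} {x : 𝓞 K} (h : IsUnit (Ideal.Quotient.mk I x)) :
    IsCoprime (Ideal.span {x}) I := by
  obtain ⟨c, hc⟩ := h.exists_right_inv
  obtain ⟨c, rfl⟩ := Ideal.Quotient.mk_surjective c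
  rw [← map_mul, ← map_one (Ideal.Quotient.mk I), Ideal.Quotient.mk_eq_mk_iff_sub_mem] at hc
  refine Ideal.isCoprime_iff_exists.2 ⟨x * c, ?_, -(x * c - 1), I.neg_mem hc, by ring⟩
  exact Ideal.mul_mem_right _ _ (Ideal.mem_span_singleton_self x)

theorem psi_pw {w : HeightOneSpectrum (𝓞 K)} {h : ℕ} {π : 𝓞 K} (h0 : h ≠ 0) (π0 : π ≠ 0)
    (hπ : Ideal.span {π} = w.asIdeal ^ h)
    (hh : ∀ (k : ℕ) (α : 𝓞 K), Ideal.span {α} = w.asIdeal ^ k → h ∣ k) {p : ℕ} (p0 : p ≠ 0)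
    {πK : Kˣ} (hπK : (πK : K) = algebraMap (𝓞 K) K π) :
    (pw Kˣ p).comap (psi πK) = pw ((𝓞 K)ˣ × Multiplicative ℤ) p := by
  ext ⟨u, n⟩
  constructor
  · rintro ⟨δ, hδ⟩
    obtain ⟨m, N, hN⟩ := exN (Multiplicative.toAdd n) p0
    have e1 : (δ * πK ^ m) ^ p = psi πK (u, n) * (πK ^ m) ^ p := by
      rw [mul_pow, ← hδ]
      rfl
    have e2 : ((δ * πK ^ m : Kˣ) : K) ^ p = algebraMap (𝓞 K) K (u * π ^ N) := by
      rw [← psi_shift hπK u n m N p hN, ← e1, Units.val_pow_eq_pow_val]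
    obtain ⟨g, hg⟩ := IsIntegrallyClosed.exists_algebraMap_eq_of_isIntegral_pow (R := 𝓞 K)
      (x := ((δ * πK ^ m : Kˣ) : K)) (Nat.pos_of_ne_zero p0) (by
        rw [e2]; exact isIntegral_algebraMap)
    have e3 : g ^ p = u * π ^ N := by
      apply FaithfulSMul.algebraMap_injective (𝓞 K) K
      rw [← e2, map_pow, hg]
    obtain ⟨u', n', hn', rfl⟩ := lemC h0 π0 hπ hh p0 e3
    refine ⟨(u', Multiplicative.ofAdd ((n' : ℤ) - m)), Prod.ext rfl ?_⟩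
    apply Multiplicative.toAdd.injective
    have e4 : (p : ℤ) * ((n' : ℤ) - m) = Multiplicative.toAdd n := by
      have : (N : ℤ) = p * n' := by exact_mod_cast hn'
      linarith
    simp only [powMonoidHom_apply, Prod.pow_mk, toAdd_pow, toAdd_ofAdd, nsmul_eq_mul]
    exact e4
  · rintro ⟨a, ha⟩
    refine ⟨psi πK a, ?_⟩
    rw [← ha]
    simp only [powMonoidHom_apply, map_pow]


theorem lam_phi {w : HeightOneSpectrum (𝓞 K)} {h : ℕ} {π : 𝓞 K} {I : Ideal (𝓞 K)}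
    (hcop : IsCoprime w.asIdeal I) (hπ : Ideal.span {π} = w.asIdeal ^ h)
    (hh : ∀ (k : ℕ) (α : 𝓞 K), Ideal.span {α} = w.asIdeal ^ k → h ∣ k)
    {πI : (𝓞 K ⧸ I)ˣ} (hπI : (πI : 𝓞 K ⧸ I) = Ideal.Quotient.mk I π) {α : 𝓞 K} {k : ℕ}
    (hα : Ideal.span {α} = w.asIdeal ^ k) : ∃ (u : (𝓞 K)ˣ) (n : ℕ), α = u * π ^ n ∧
      IsUnit (Ideal.Quotient.mk I α) ∧
      ((phi I πI (u, Multiplicative.ofAdd (n : ℤ)) : (𝓞 K ⧸ I)ˣ) : 𝓞 K ⧸ I) =
        Ideal.Quotient.mk I α := by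
  obtain ⟨u, n, rfl, -⟩ := lemB hπ hh hα
  refine ⟨u, n, rfl, isU ?_, ?_⟩
  · rw [hα]
    exact hcop.pow_left
  · have := phi_shift hπI u (Multiplicative.ofAdd (n : ℤ)) 0 n 0 (by simp)
    rwa [pow_zero, mul_one] at this

theorem pow_unit {I : Ideal (𝓞 K)} {p : ℕ} (p0 : p ≠ 0) {x y : 𝓞 K} (h : x - y ^ p ∈ I)
    (hx : IsUnit (Ideal.Quotient.mk I x)) : ∃ z : (𝓞 K ⧸ I)ˣ,
      ((z ^ p : (𝓞 K ⧸ I)ˣ) : 𝓞 K ⧸ I) = Ideal.Quotient.mk I x := by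
  rw [← Ideal.Quotient.mk_eq_mk_iff_sub_mem, map_pow] at h
  rw [h, isUnit_pow_iff p0] at hx
  obtain ⟨z, hz⟩ := hx
  exact ⟨z, by rw [Units.val_pow_eq_pow_val, hz, h]⟩

theorem surj {w : HeightOneSpectrum (𝓞 K)} {h : ℕ} {π : 𝓞 K} {I : Ideal (𝓞 K)}
    (hcop : IsCoprime w.asIdeal I) (hπ : Ideal.span {π} = w.asIdeal ^ h)
    (hh : ∀ (k : ℕ) (α : 𝓞 K), Ideal.span {α} = w.asIdeal ^ k → h ∣ k)
    {πI : (𝓞 K ⧸ I)ˣ} (hπI : (πI : 𝓞 K ⧸ I) = Ideal.Quotient.mk I π) {p : ℕ} (p0 : p ≠ 0)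
    (hs : ∀ x : 𝓞 K, IsCoprime (Ideal.span {x}) I → ∃ (α y : 𝓞 K) (k : ℕ),
      Ideal.span {α} = w.asIdeal ^ k ∧ x * α - y ^ p ∈ I) :
    (phi I πI).range ⊔ pw (𝓞 K ⧸ I)ˣ p = ⊤ := by
  rw [eq_top_iff]
  intro c _
  obtain ⟨x, hx⟩ := Ideal.Quotient.mk_surjective (c : 𝓞 K ⧸ I)
  obtain ⟨α, y, k, hα, hy⟩ := hs x (isU' (by rw [hx]; exact c.isUnit))
  obtain ⟨u, n, -, hu, hun⟩ := lam_phi hcop hπ hh hπI hα
  obtain ⟨z, hz⟩ := pow_unit p0 hy (by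
    rw [map_mul, hx]
    exact c.isUnit.mul hu)
  rw [Subgroup.mem_sup]
  refine ⟨(phi I πI (u, Multiplicative.ofAdd (n : ℤ)))⁻¹, inv_mem ⟨_, rfl⟩, z ^ p, ⟨z, rfl⟩, ?_⟩
  rw [inv_mul_eq_iff_eq_mul]
  apply Units.ext
  rw [hz, Units.val_mul, hun, map_mul, hx, mul_comm]

theorem VV_eq {w : HeightOneSpectrum (𝓞 K)} {h : ℕ} {π : 𝓞 K} {I : Ideal (𝓞 K)} (π0 : π ≠ 0)
    (hcop : IsCoprime w.asIdeal I) (hπ : Ideal.span {π} = w.asIdeal ^ h)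
    (hh : ∀ (k : ℕ) (α : 𝓞 K), Ideal.span {α} = w.asIdeal ^ k → h ∣ k)
    {πK : Kˣ} (hπK : (πK : K) = algebraMap (𝓞 K) K π)
    {πI : (𝓞 K ⧸ I)ˣ} (hπI : (πI : 𝓞 K ⧸ I) = Ideal.Quotient.mk I π) {p : ℕ} (p0 : p ≠ 0) :
    VV p (((pw (𝓞 K ⧸ I)ˣ p).comap (phi I πI)).map (psi πK) ⊔ pw Kˣ p) = UU p w I := by
  ext σ
  constructor
  · rintro hσ β ⟨α, ⟨⟨k, hk⟩, y, hy⟩, hβ⟩
    obtain ⟨u, n, hα, hu, hun⟩ := lam_phi hcop hπ hh hπI hk
    obtain ⟨z, hz⟩ := pow_unit p0 hy hu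
    refine hσ β ⟨psi πK (u, Multiplicative.ofAdd (n : ℤ)), ?_, ?_⟩
    · refine Subgroup.mem_sup_left ⟨_, ⟨z, ?_⟩, rfl⟩
      apply Units.ext
      rw [hun, ← hz]
      rfl
    · have := psi_shift hπK u (Multiplicative.ofAdd (n : ℤ)) 0 n 0 (by simp)
      rw [pow_zero, mul_one] at this
      rw [hβ, this, ← hα]
      rfl
  · rintro hσ β ⟨γ, hγ, hβ⟩
    obtain ⟨_, ⟨⟨u, n⟩, ⟨z, hz⟩, rfl⟩, _, ⟨δ, rfl⟩, rfl⟩ := Subgroup.mem_sup.1 hγ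
    obtain ⟨m, N, hN⟩ := exN (Multiplicative.toAdd n) p0
    have e1 := psi_shift hπK u n m N p hN
    have e2 := phi_shift hπI u n m N p hN
    obtain ⟨y, hy⟩ := Ideal.Quotient.mk_surjective ((z * πI ^ m : (𝓞 K ⧸ I)ˣ) : 𝓞 K ⧸ I)
    have hL : (u * π ^ N : 𝓞 K) ∈ Lam p w I := by
      refine ⟨⟨h * N, ?_⟩, y, ?_⟩
      · rw [pow_mul, ← hπ, Ideal.span_singleton_pow, Ideal.span_singleton_eq_span_singleton]
        exact ⟨u⁻¹, by rw [mul_comm, ← mul_assoc, Units.inv_mul, one_mul]⟩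
      · rw [← Ideal.Quotient.mk_eq_mk_iff_sub_mem, ← e2, map_pow, hy, ← Units.val_pow_eq_pow_val,
          mul_pow, ← hz]
        rfl
    have e3 : (β * algebraMap K (AlgebraicClosure K) ((πK ^ m * δ⁻¹ : Kˣ) : K)) ^ p =
        algebraMap (𝓞 K) (AlgebraicClosure K) (u * π ^ N) := by
      rw [IsScalarTower.algebraMap_apply (𝓞 K) K (AlgebraicClosure K), ← e1, mul_pow, hβ,
        ← map_pow, ← map_mul, ← Units.val_pow_eq_pow_val, ← Units.val_mul]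
      congr 2
      rw [powMonoidHom_apply, mul_pow, inv_pow, mul_mul_mul_comm, mul_inv_cancel, mul_one]
    have e4 := hσ _ ⟨_, hL, e3⟩
    rw [map_mul, AlgEquiv.commutes] at e4
    refine mul_right_cancel₀ ?_ e4
    rw [Ne, map_eq_zero]
    exact Units.ne_zero _

end cnt

theorem s_cnt (h : S_rk) : S_cnt := by
  intro K _ _ p _ w I hI hcop hs
  have p0 : p ≠ 0 := (Fact.out : p.Prime).ne_zero
  obtain ⟨k, π, h0, π0, hπ, hh⟩ := exP w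
  obtain ⟨πI, hπI⟩ := isU (I := I) (x := π) (by rw [hπ]; exact hcop.pow_left)
  obtain ⟨πK, hπK⟩ : ∃ πK : Kˣ, (πK : K) = algebraMap (𝓞 K) K π := by
    have : algebraMap (𝓞 K) K π ≠ 0 := fun h1 =>
      π0 (FaithfulSMul.algebraMap_injective (𝓞 K) K (by rw [h1, map_zero]))
    exact ⟨Units.mk0 _ this, rfl⟩
  refine ⟨((pw (𝓞 K ⧸ I)ˣ p).comap (phi I πI)).map (psi πK) ⊔ pw Kˣ p, le_sup_right,
    VV_eq π0 hcop hπ hh hπK hπI p0, ?_⟩
  have e1 : (pw Kˣ p).relIndex (((pw (𝓞 K ⧸ I)ˣ p).comap (phi I πI)).map (psi πK) ⊔ pw Kˣ p) =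
      (pw ((𝓞 K)ˣ × Multiplicative ℤ) p).relIndex ((pw (𝓞 K ⧸ I)ˣ p).comap (phi I πI)) := by
    rw [Subgroup.relIndex_sup_right, ← Subgroup.relIndex_comap, psi_pw h0 π0 hπ hh p0 hπK]
  have e2 : ((pw (𝓞 K ⧸ I)ˣ p).comap (phi I πI)).index = (pw (𝓞 K ⧸ I)ˣ p).index := by
    rw [Subgroup.index_comap, ← Subgroup.relIndex_sup_right, surj hcop hπ hh hπI p0 hs,
      Subgroup.relIndex_top_right]
  have e3 : pw ((𝓞 K)ˣ × Multiplicative ℤ) p ≤ (pw (𝓞 K ⧸ I)ˣ p).comap (phi I πI) := by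
    rintro _ ⟨a, rfl⟩
    exact ⟨phi I πI a, by simp only [powMonoidHom_apply, map_pow]⟩
  rw [e1, ← e2, Subgroup.relIndex_mul_index e3, idx_prod, h K p, ← pow_succ]
  congr 1
  ring

end Pool.Agent.H517.D
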