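import Pool.Agent.H517.D.Def

/-!
# Density of the tame primes which can be added: part EQ
-/

set_option autoImplicit false
set_option linter.unusedSectionVars false

namespace Pool.Agent.H517.D

open NumberField IsDedekindDomain Filter Topology Pool.Agent.W401.Cheb



section aux

variable {F : Type} [Field F] [Finite F]

omit [Finite F] in
theorem fin_pow_surj (p : ℕ) (hp : p.Prime) (h : ¬ p ∣ Nat.card F - 1) (x : F) : ∃ z : F, z ^ p = x := by
  classical
  by_cases hx : x = 0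
  · exact ⟨0, by rw [hx, zero_pow hp.ne_zero]⟩
  have hc : (Nat.card Fˣ).Coprime p := by
    rw [Nat.card_units]
    exact ((Nat.Prime.coprime_iff_not_dvd hp).2 h).symm
  obtain ⟨u, hu⟩ := (powCoprime hc).surjective (Units.mk0 x hx)
  refine ⟨u, ?_⟩
  have h2 : u ^ p = Units.mk0 x hx := hu
  have h3 := congrArg (Units.val) h2
  rw [Units.val_pow_eq_pow_val, Units.val_mk0] at h3
  exact h3

theorem fin_not_pow (p : ℕ) (hp : p.Prime) (h : p ∣ Nat.card F - 1) :
    ∃ z : F, ∀ y : F, y ^ p ≠ z := by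
  classical
  by_contra hcon
  push Not at hcon
  have hsurj : Function.Surjective (fun u : Fˣ => u ^ p) := by
    intro u
    obtain ⟨y, hy⟩ := hcon (u : F)
    have hy0 : y ≠ 0 := by
      intro h0
      rw [h0, zero_pow hp.ne_zero] at hy
      exact u.ne_zero hy.symm
    refine ⟨Units.mk0 y hy0, Units.ext ?_⟩
    show ((Units.mk0 y hy0 ^ p : Fˣ) : F) = u
    rw [Units.val_pow_eq_pow_val, Units.val_mk0, hy]
  have hinj : Function.Injective (fun u : Fˣ => u ^ p) := Finite.injective_iff_surjective.2 hsurj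
  have : Fact p.Prime := ⟨hp⟩
  have hd : p ∣ Nat.card Fˣ := by
    rw [Nat.card_units]
    exact h
  obtain ⟨u, hu⟩ := exists_prime_orderOf_dvd_card' p hd
  have h1 : u = 1 := hinj (by
    show u ^ p = 1 ^ p
    rw [one_pow, ← hu, pow_orderOf_eq_one])
  rw [h1, orderOf_one] at hu
  exact hp.one_lt.ne hu

theorem fin_adjust (p : ℕ) (hp : p.Prime) (a c : F) (ha0 : a ≠ 0) (hc0 : c ≠ 0)
    (ha : ∀ y : F, y ^ p ≠ a) : ∃ (i : ℕ) (z : F), z ^ p = c * a ^ i := by
  classical
  obtain ⟨g, hg⟩ := IsCyclic.exists_generator (α := Fˣ)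
  obtain ⟨s, hs⟩ := (mem_powers_iff_mem_zpowers.2 (hg (Units.mk0 a ha0)))
  obtain ⟨t, ht⟩ := (mem_powers_iff_mem_zpowers.2 (hg (Units.mk0 c hc0)))
  have hs' : (g : F) ^ s = a := by
    have h3 := congrArg Units.val hs
    simpa using h3
  have ht' : (g : F) ^ t = c := by
    have h3 := congrArg Units.val ht
    simpa using h3
  have hps : ¬ p ∣ s := by
    rintro ⟨m, rfl⟩
    exact ha ((g : F) ^ m) (by rw [← hs', ← pow_mul, mul_comm])
  have hcop : Nat.Coprime s p := ((Nat.Prime.coprime_iff_not_dvd hp).2 hps).symm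
  obtain ⟨i, hi⟩ : ∃ i : ℕ, p ∣ t + s * i := by
    have hf : Fact p.Prime := ⟨hp⟩
    have hs0 : (s : ZMod p) ≠ 0 := by
      intro h
      exact hps ((ZMod.natCast_eq_zero_iff s p).1 h)
    refine ⟨(-(t : ZMod p) / s).val, ?_⟩
    rw [← ZMod.natCast_eq_zero_iff]
    push_cast
    rw [ZMod.natCast_zmod_val]
    field_simp
    ring
  obtain ⟨m, hm⟩ := hi
  refine ⟨i, (g : F) ^ m, ?_⟩
  rw [← hs', ← ht', ← pow_mul, ← pow_mul, ← pow_add, hm, mul_comm]

end aux

section ideals

variable {K : Type} [Field K] [NumberField K]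

theorem not_mem_of_span {w v : HeightOneSpectrum (𝓞 K)} (hvw : v ≠ w) {α : 𝓞 K} {k : ℕ}
    (h : Ideal.span {α} = w.asIdeal ^ k) : α ∉ v.asIdeal := by
  intro hα
  have h1 : w.asIdeal ^ k ≤ v.asIdeal := by
    rw [← h, Ideal.span_singleton_le_iff_mem]
    exact hα
  have h2 : w.asIdeal ≤ v.asIdeal := v.isPrime.le_of_pow_le h1
  have h3 : w.asIdeal = v.asIdeal := w.isMaximal.eq_of_le v.isPrime.ne_top h2
  exact hvw (HeightOneSpectrum.ext h3.symm)

theorem coprime_max (v : HeightOneSpectrum (𝓞 K)) (J : Ideal (𝓞 K)) (h : ¬ J ≤ v.asIdeal) :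
    IsCoprime v.asIdeal J := by
  rw [Ideal.isCoprime_iff_sup_eq]
  refine v.isMaximal.1.2 _ (lt_of_le_of_ne le_sup_left ?_)
  intro h1
  exact h (h1 ▸ le_sup_right)

theorem uniq_b {w : HeightOneSpectrum (𝓞 K)} {e e' : ℕ} {b b' : Ideal (𝓞 K)}
    (h : w.asIdeal ^ e * b = w.asIdeal ^ e' * b') (hb : IsCoprime w.asIdeal b)
    (hb' : IsCoprime w.asIdeal b') : b = b' := by
  have h1 : w.asIdeal ^ e' ∣ w.asIdeal ^ e :=
    (IsCoprime.pow_left hb).dvd_of_dvd_mul_right (h ▸ dvd_mul_right _ _)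
  have h2 : w.asIdeal ^ e ∣ w.asIdeal ^ e' :=
    (IsCoprime.pow_left hb').dvd_of_dvd_mul_right (h ▸ dvd_mul_right _ _)
  have h3 : w.asIdeal ^ e = w.asIdeal ^ e' := dvd_antisymm h2 h1
  rw [h3] at h
  exact mul_left_cancel₀ (pow_ne_zero _ w.ne_bot) h

omit [NumberField K] in
/-- the chinese remainder theorem -/
theorem crt {v I : Ideal (𝓞 K)} (h : IsCoprime v I) (a b : 𝓞 K) :
    ∃ x : 𝓞 K, x - a ∈ v ∧ x - b ∈ I := by
  obtain ⟨i, hi, j, hj, hij⟩ := Ideal.isCoprime_iff_exists.1 h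
  refine ⟨a * j + b * i, ?_, ?_⟩
  · have h1 : a * j + b * i - a = (b - a) * i := by
      have : j = 1 - i := by rw [← hij]; ring
      rw [this]
      ring
    rw [h1]
    exact v.mul_mem_left _ hi
  · have h1 : a * j + b * i - b = (a - b) * j := by
      have : i = 1 - j := by rw [← hij]; ring
      rw [this]
      ring
    rw [h1]
    exact I.mul_mem_left _ hj

omit [NumberField K] in
theorem pow_congr {I : Ideal (𝓞 K)} {x y : 𝓞 K} (h : x - y ∈ I) (p : ℕ) : x ^ p - y ^ p ∈ I := by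
  obtain ⟨c, hc⟩ := sub_dvd_pow_sub_pow x y p
  rw [hc]
  exact I.mul_mem_right _ h

end ideals

/-

EQ. Notation N := ∏ u ∈ S, u.asIdeal, I := 𝔟^3 * N; ∏ u ∈ insert v S = v * N (Finset.prod_insert hvS).
UNIQUENESS: if w^e * 𝔟 = w^e' * 𝔟' with 𝔟, 𝔟' coprime to w then 𝔟 = 𝔟' (w^e divides w^e' * 𝔟', coprime to 𝔟', so divides w^e', and vice versa, so w^e = w^e', and cancel; ideals of 𝓞 K
are a cancellative monoid, w^e ≠ 0). So the (e', 𝔟') in the field `units` of Gen is always the given 𝔟.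
v is coprime to 𝔟 (𝔟 ∣ (p), p ∉ v) and to N (v ∉ S, primes are maximal), so to I. (O/v) is a finite field with absNorm v = q elements (Ideal.absNorm_apply, Submodule.cardQuot), its units
are cyclic of order q - 1 (Fintype/Nat card_units).
(⇐) Suppose p ∣ q - 1, every α ∈ Lam is a p-th power mod v, and Gen p (insert v S) w. There is z0 ∉ v which is not a p-th power mod v (z ↦ z^p is not injective on (O/v)ˣ, which has order
divisible by p [Cauchy: exists_prime_orderOf_dvd_card], so not surjective). CRT: x ≡ z0 mod v, x ≡ 1 mod I. x is coprime to 𝔟 * (v * N). Get α, y, k with x α - y^p ∈ 𝔟^3 * (v * N).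
So α ≡ y^p mod I, α ∈ Lam, α ≡ z^p mod v; α ∉ v since (α) = w^k, v ≠ w. So z0 z^p ≡ y^p mod v and z0 is a p-th power mod v (y * z⁻¹). Contradiction.
(⇒) Suppose NOT(p ∣ q - 1 ∧ ∀ α ∈ Lam, ...). To show Gen p (insert v S) w: above, tame, classes are clear. units: take (e, 𝔟); let x be coprime to 𝔟 * (v * N); Gen p S w gives
α, y, k with x α - y^p ∈ I. Case A, p ∤ q - 1: z ↦ z^p is bijective on (O/v)ˣ, so x α ≡ z^p mod v. CRT: y' ≡ y mod I, y' ≡ z mod v, then x α - y'^p ∈ I ⊓ v = I * v.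
Case B, p ∣ q - 1, there is α0 ∈ Lam, (α0) = w^k0, α0 ≡ y0^p mod I, which is not a p-th power mod v. (O/v)ˣ is cyclic, g a generator, α0 = g^a with p ∤ a, x α = g^c, choose i with a i + c ≡ 0 mod p;
then x α α0^i ≡ z^p mod v for some z. α' = α α0^i, (α') = w^(k + i k0), x α' ≡ (y y0^i)^p mod I. CRT as before.

-/
open Classical in
theorem s_eq : S_eq := by
  intro K _ _ p _ S w hG e 𝔟 he hcop v hvS hvw hpv
  have hp : p.Prime := Fact.out
  obtain ⟨N, hN⟩ : ∃ N : Ideal (𝓞 K), N = ∏ u ∈ S, u.asIdeal := ⟨_, rfl⟩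
  have hins : ∏ u ∈ insert v S, u.asIdeal = v.asIdeal * N := by
    rw [Finset.prod_insert hvS, hN]
  -- the residue field
  have hmax : v.asIdeal.IsMaximal := v.isMaximal
  let _ : Field (𝓞 K ⧸ v.asIdeal) := Ideal.Quotient.field v.asIdeal
  have : Finite (𝓞 K ⧸ v.asIdeal) := Ideal.finiteQuotientOfFreeOfNeBot v.asIdeal v.ne_bot
  have hcard : Nat.card (𝓞 K ⧸ v.asIdeal) = Ideal.absNorm v.asIdeal := by
    rw [Ideal.absNorm_apply, Submodule.cardQuot_apply]
  have hmk : ∀ x y : 𝓞 K, Ideal.Quotient.mk v.asIdeal x = Ideal.Quotient.mk v.asIdeal y ↔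
      x - y ∈ v.asIdeal := fun x y => Ideal.Quotient.eq
  have hmk0 : ∀ x : 𝓞 K, Ideal.Quotient.mk v.asIdeal x = 0 ↔ x ∈ v.asIdeal :=
    fun x => Ideal.Quotient.eq_zero_iff_mem
  -- coprimality
  have hvb : IsCoprime v.asIdeal 𝔟 := by
    refine coprime_max v 𝔟 fun h => hpv (h ?_)
    have h1 : Ideal.span {(p : 𝓞 K)} ≤ 𝔟 := by
      rw [← he]
      exact Ideal.mul_le_right
    exact h1 (Ideal.mem_span_singleton_self _)
  have hvN : IsCoprime v.asIdeal N := by
    rw [hN]
    refine IsCoprime.prod_right fun u hu => coprime_max v u.asIdeal fun h => ?_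
    have h3 : u.asIdeal = v.asIdeal := u.isMaximal.eq_of_le v.isPrime.ne_top h
    exact hvS (HeightOneSpectrum.ext h3.symm ▸ hu)
  obtain ⟨I, hI⟩ : ∃ I : Ideal (𝓞 K), I = 𝔟 ^ 3 * N := ⟨_, rfl⟩
  have hvI : IsCoprime v.asIdeal I := by
    rw [hI]
    exact (IsCoprime.pow_right hvb).mul_right hvN
  have hvIm : 𝔟 ^ 3 * (v.asIdeal * N) = v.asIdeal ⊓ I := by
    rw [← Ideal.mul_eq_inf_of_isCoprime hvI, hI]
    ring
  -- the units of `Gen p S w`
  have hSu : ∀ x : 𝓞 K, IsCoprime (Ideal.span {x}) (𝔟 * N) →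
      ∃ (α y : 𝓞 K) (k : ℕ), Ideal.span {α} = w.asIdeal ^ k ∧ x * α - y ^ p ∈ I := by
    obtain ⟨e', b', h1, h2, h3⟩ := hG.units
    have hb : b' = 𝔟 := uniq_b (h1.trans he.symm) h2 hcop
    rw [hb, ← hN, ← hI] at h3
    exact h3
  rw [← hN, ← hI]
  constructor
  · intro hnot
    by_contra hcon
    apply hnot
    refine ⟨hG.above, ?_, hG.classes, e, 𝔟, he, hcop, ?_⟩
    · intro u hu
      rcases Finset.mem_insert.1 hu with rfl | hu
      · exact hpv
      · exact hG.tame u hu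
    · intro x hx
      rw [hins] at hx ⊢
      rw [hvIm]
      have hxv : x ∉ v.asIdeal := by
        intro h
        have h1 : IsCoprime (Ideal.span {x}) v.asIdeal :=
          hx.of_isCoprime_of_dvd_right ⟨𝔟 * N, by ring⟩
        rw [Ideal.isCoprime_iff_sup_eq] at h1
        have h2 : Ideal.span {x} ≤ v.asIdeal := (Ideal.span_singleton_le_iff_mem _).2 h
        rw [sup_eq_right.2 h2] at h1
        exact v.isPrime.ne_top h1
      obtain ⟨α, y, k, hα, hy⟩ := hSu x (hx.of_isCoprime_of_dvd_right ⟨v.asIdeal, by ring⟩)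
      have hαv := not_mem_of_span hvw hα
      -- it suffices to find `α'`
      have key : ∃ (α' y₁ z : 𝓞 K) (k' : ℕ), Ideal.span {α'} = w.asIdeal ^ k' ∧
          x * α' - y₁ ^ p ∈ I ∧ x * α' - z ^ p ∈ v.asIdeal := by
        by_cases hpq : p ∣ Ideal.absNorm v.asIdeal - 1
        · have h1 : ∃ α₀ ∈ Lam p w I, ∀ z : 𝓞 K, α₀ - z ^ p ∉ v.asIdeal := by
            by_contra h2
            push Not at h2
            exact hcon ⟨hpq, h2⟩
          obtain ⟨α₀, ⟨⟨k₀, hk₀⟩, y₀, hy₀⟩, h2⟩ := h1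
          have hα₀v := not_mem_of_span hvw hk₀
          obtain ⟨i, z, hz⟩ := fin_adjust p hp (Ideal.Quotient.mk v.asIdeal α₀)
            (Ideal.Quotient.mk v.asIdeal (x * α)) (fun h => hα₀v ((hmk0 _).1 h))
            (fun h => by
              rw [hmk0] at h
              rcases v.isPrime.mem_or_mem h with h | h
              · exact hxv h
              · exact hαv h)
            (fun y hy => by
              obtain ⟨y', rfl⟩ := Ideal.Quotient.mk_surjective y
              refine h2 y' ((hmk _ _).1 ?_)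
              rw [map_pow, hy])
          obtain ⟨z', rfl⟩ := Ideal.Quotient.mk_surjective z
          refine ⟨α * α₀ ^ i, y * y₀ ^ i, z', k + k₀ * i, ?_, ?_, ?_⟩
          · rw [← Ideal.span_singleton_mul_span_singleton, ← Ideal.span_singleton_pow, hα, hk₀,
              ← pow_mul, ← pow_add]
          · have h3 : Ideal.Quotient.mk I (x * α) = Ideal.Quotient.mk I (y ^ p) :=
              Ideal.Quotient.eq.2 hy
            have h4 : Ideal.Quotient.mk I α₀ = Ideal.Quotient.mk I (y₀ ^ p) :=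
              Ideal.Quotient.eq.2 hy₀
            refine Ideal.Quotient.eq.1 ?_
            calc Ideal.Quotient.mk I (x * (α * α₀ ^ i)) =
                Ideal.Quotient.mk I (x * α) * Ideal.Quotient.mk I α₀ ^ i := by
                  rw [← map_pow, ← map_mul, mul_assoc]
              _ = Ideal.Quotient.mk I ((y * y₀ ^ i) ^ p) := by
                  rw [h3, h4, ← map_pow, ← map_mul]
                  congr 1
                  ring
          · refine (hmk _ _).1 ?_
            rw [map_pow, hz, ← map_pow, ← map_mul, mul_assoc]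
        · obtain ⟨z, hz⟩ := fin_pow_surj p hp (by rw [hcard]; exact hpq)
            (Ideal.Quotient.mk v.asIdeal (x * α))
          obtain ⟨z', rfl⟩ := Ideal.Quotient.mk_surjective z
          refine ⟨α, y, z', k, hα, hy, (hmk _ _).1 ?_⟩
          rw [map_pow, hz]
      obtain ⟨α', y₁, z, k', h1, h2, h3⟩ := key
      obtain ⟨y', h4, h5⟩ := crt hvI z y₁
      refine ⟨α', y', k', h1, ?_, ?_⟩
      · have h6 := pow_congr h4 p
        have h7 : x * α' - y' ^ p = (x * α' - z ^ p) - (y' ^ p - z ^ p) := by ring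
        rw [h7]
        exact v.asIdeal.sub_mem h3 h6
      · have h6 := pow_congr h5 p
        have h7 : x * α' - y' ^ p = (x * α' - y₁ ^ p) - (y' ^ p - y₁ ^ p) := by ring
        rw [h7]
        exact I.sub_mem h2 h6
  · rintro ⟨hpq, hLam⟩ hG'
    obtain ⟨e', b', h1, h2, h3⟩ := hG'.units
    have hb : b' = 𝔟 := uniq_b (h1.trans he.symm) h2 hcop
    rw [hb, hins] at h3
    obtain ⟨ζ, hζ⟩ := fin_not_pow (F := 𝓞 K ⧸ v.asIdeal) p hp (by rw [hcard]; exact hpq)
    obtain ⟨z₀, rfl⟩ := Ideal.Quotient.mk_surjective ζ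
    have hz₀ : z₀ ∉ v.asIdeal := by
      intro h
      refine hζ 0 ?_
      rw [zero_pow hp.ne_zero, (hmk0 _).2 h]
    obtain ⟨x, hxv, hxI⟩ := crt hvI z₀ 1
    have hxI' : IsCoprime (Ideal.span {x}) I := by
      rw [Ideal.isCoprime_iff_exists]
      refine ⟨x, Ideal.mem_span_singleton_self x, 1 - x, ?_, by ring⟩
      have : 1 - x = -(x - 1) := by ring
      rw [this]
      exact I.neg_mem hxI
    have hxvn : x ∉ v.asIdeal := by
      intro h
      refine hz₀ ?_
      have : z₀ = x - (x - z₀) := by ring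
      rw [this]
      exact v.asIdeal.sub_mem h hxv
    have hxv' : IsCoprime (Ideal.span {x}) v.asIdeal := by
      refine (coprime_max v _ fun h => ?_).symm
      exact hxvn ((Ideal.span_singleton_le_iff_mem _).1 h)
    have hxb : IsCoprime (Ideal.span {x}) 𝔟 :=
      hxI'.of_isCoprime_of_dvd_right ⟨𝔟 ^ 2 * N, by rw [hI]; ring⟩
    have hxN : IsCoprime (Ideal.span {x}) N :=
      hxI'.of_isCoprime_of_dvd_right ⟨𝔟 ^ 3, by rw [hI]; ring⟩
    obtain ⟨α, y, k, hα, hy⟩ := h3 x (hxb.mul_right (hxv'.mul_right hxN))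
    rw [hvIm] at hy
    have hαL : α ∈ Lam p w I := by
      refine ⟨⟨k, hα⟩, y, ?_⟩
      have h4 : α - y ^ p = (x * α - y ^ p) - (x - 1) * α := by ring
      rw [h4]
      exact I.sub_mem hy.2 (I.mul_mem_right _ hxI)
    obtain ⟨z, hz⟩ := hLam α hαL
    have hαv := not_mem_of_span hvw hα
    have e1 : Ideal.Quotient.mk v.asIdeal α = Ideal.Quotient.mk v.asIdeal z ^ p := by
      rw [← map_pow]
      exact (hmk _ _).2 hz
    have e2 : Ideal.Quotient.mk v.asIdeal x * Ideal.Quotient.mk v.asIdeal α =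
        Ideal.Quotient.mk v.asIdeal y ^ p := by
      rw [← map_pow, ← map_mul]
      exact (hmk _ _).2 hy.1
    have e3 : Ideal.Quotient.mk v.asIdeal x = Ideal.Quotient.mk v.asIdeal z₀ := (hmk _ _).2 hxv
    have hz0 : Ideal.Quotient.mk v.asIdeal z ≠ 0 := by
      intro h
      rw [h, zero_pow hp.ne_zero] at e1
      exact hαv ((hmk0 _).1 e1)
    refine hζ (Ideal.Quotient.mk v.asIdeal y / Ideal.Quotient.mk v.asIdeal z) ?_
    rw [div_pow, ← e2, ← e1, e3, mul_div_assoc, div_self, mul_one]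
    rw [e1]
    exact pow_ne_zero _ hz0

end Pool.Agent.H517.D
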