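import Pool.Agent.H517.D.Def

/-!
# Density of the tame primes which can be added: part FR
-/

set_option autoImplicit false
set_option linter.unusedSectionVars false

namespace Pool.Agent.H517.D

open NumberField IsDedekindDomain Filter Topology Pool.Agent.W401.Cheb


/-

FR. (see AbsDefs.lean for IsFrob: ∃ Q maximal ideal of 𝓞 K̄ above v, σ • x - x ^ N(v) ∈ Q for all x ∈ 𝓞 K̄). q := absNorm v. α ∈ Lam is not in v as (α) = w^k and v ≠ w. Note 1 ∈ Lam p w I,
so the elements of UU fix the p-th roots of unity. As p ∉ v = Q ∩ O also p ∉ Q (p ∈ Q iff p ∈ Q.comap).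
(⇐) σ ∈ UU with IsFrob v σ, Q. Let ζ be a primitive p-th root of unity in K̄ (IsPrimitiveRoot; exists since K̄ is algebraically closed of characteristic 0), integral. ζ = σ ζ ≡ ζ^q mod Q. If p ∤ q - 1 then
ζ^(q-1) ≠ 1 is another primitive p-th root of unity ζ' and 1 - ζ' ∈ Q (ζ is a unit); but 1 - ζ' divides p in 𝓞 K̄ (∏_{i=1}^{p-1} (1 - ζ'^i) = p), so p ∈ Q, contradiction. α ∈ Lam: let β be a root of X^p - α in K̄,
integral; β = σ β ≡ β^q mod Q, β ∉ Q (else α ∈ Q, α ∈ v), so β^(q-1) ≡ 1 mod Q, so with q - 1 = p m: α^m = β^(pm) ≡ 1 mod Q, α^m - 1 ∈ Q ∩ O = v. So the class of α in the cyclic group (O/v)ˣ of order p m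
satisfies α^m = 1, so it is a p-th power.
(⇒) There is a Frobenius element σ at v: `(Pool.Agent.W401.Cheb.TaskFrob)` is proved in the library (R_seed8/W401/Cheb/Frob.lean or search TaskFrob), its first part: ∀ v, ∃ σ, IsFrob v σ. Let Q belong to σ. Let
β^p = α ∈ Lam, α ≡ z^p mod v. β is integral and not in Q. σ β ≡ β^q = β * α^m ≡ β * z^(pm) = β * z^(q-1) ≡ β mod Q (q - 1 = p m; z ∉ v). So ξ := σ β / β satisfies ξ^p = σ α / α = 1, ξ integral, and ξ ≡ 1 mod Q
(β (ξ - 1) ∈ Q, β ∉ Q, Q prime). If ξ ≠ 1 it is a primitive p-th root of unity and 1 - ξ divides p, so p ∈ Q, contradiction. So σ β = β; σ ∈ UU.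

-/
section aux

variable {K : Type} [Field K] [NumberField K]

theorem fr_coe (a : 𝓞 K) : ((algebraMap (𝓞 K) (𝓞 (AlgebraicClosure K)) a :
    𝓞 (AlgebraicClosure K)) : AlgebraicClosure K) = algebraMap (𝓞 K) (AlgebraicClosure K) a := rfl

theorem fr_coe_smul (σ : GK K) (x : 𝓞 (AlgebraicClosure K)) :
    ((σ • x : 𝓞 (AlgebraicClosure K)) : AlgebraicClosure K) = σ x := rfl

/-- a `p`-th root of unity congruent to one is one -/
theorem fr_root {p : ℕ} {Q : Ideal (𝓞 (AlgebraicClosure K))} (hp : (p : 𝓞 (AlgebraicClosure K)) ∉ Q)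
    {ξ : 𝓞 (AlgebraicClosure K)} (h1 : ξ ^ p = 1) (h2 : ξ - 1 ∈ Q) : ξ = 1 := by
  by_contra hne
  have h3 : (∑ i ∈ Finset.range p, ξ ^ i) = 0 := by
    have h4 := geom_sum_mul ξ p
    rw [h1, sub_self] at h4
    exact (mul_eq_zero.1 h4).resolve_right (sub_ne_zero.2 hne)
  apply hp
  have h5 : (p : 𝓞 (AlgebraicClosure K)) = -∑ i ∈ Finset.range p, (ξ ^ i - 1) := by
    rw [Finset.sum_sub_distrib, h3, Finset.sum_const, Finset.card_range, nsmul_eq_mul, mul_one,
      zero_sub, neg_neg]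
  rw [h5]
  refine Q.neg_mem (Q.sum_mem fun i _ => ?_)
  exact Q.mem_of_dvd (sub_one_dvd_pow_sub_one ξ i) h2

theorem fr_one_mem (p : ℕ) (w : HeightOneSpectrum (𝓞 K)) (I : Ideal (𝓞 K)) :
    (1 : 𝓞 K) ∈ Lam p w I := by
  refine ⟨⟨0, ?_⟩, 1, ?_⟩
  · rw [pow_zero, Ideal.span_singleton_one, Ideal.one_eq_top]
  · rw [one_pow, sub_self]
    exact I.zero_mem

theorem fr_notMem {p : ℕ} {w : HeightOneSpectrum (𝓞 K)} {I : Ideal (𝓞 K)}
    {v : HeightOneSpectrum (𝓞 K)} (hvw : v ≠ w) {α : 𝓞 K} (hα : α ∈ Lam p w I) :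
    α ∉ v.asIdeal := by
  intro h
  obtain ⟨⟨k, hk⟩, -⟩ := hα
  have h1 : w.asIdeal ^ k ≤ v.asIdeal := by
    rw [← hk, Ideal.span_singleton_le_iff_mem]
    exact h
  have hv := v.isPrime
  have h2 : w.asIdeal ≤ v.asIdeal := Ideal.IsPrime.le_of_pow_le h1
  apply hvw
  apply HeightOneSpectrum.ext
  exact (w.isMaximal.eq_of_le hv.ne_top h2).symm

/-- integral `p`-th roots -/
theorem fr_integral {p : ℕ} (hp : 0 < p) {β : AlgebraicClosure K} {α : 𝓞 K}
    (h : β ^ p = algebraMap (𝓞 K) (AlgebraicClosure K) α) :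
    ∃ β' : 𝓞 (AlgebraicClosure K), (β' : AlgebraicClosure K) = β ∧
      β' ^ p = algebraMap (𝓞 K) (𝓞 (AlgebraicClosure K)) α := by
  have h1 : IsIntegral ℤ β := by
    refine IsIntegral.of_pow hp ?_
    rw [h, ← fr_coe]
    exact (algebraMap (𝓞 K) (𝓞 (AlgebraicClosure K)) α).2
  refine ⟨⟨β, h1⟩, rfl, ?_⟩
  apply RingOfIntegers.ext
  rw [fr_coe, ← h]
  rfl

theorem fr_card (v : HeightOneSpectrum (𝓞 K)) :
    Ideal.absNorm v.asIdeal = Nat.card (𝓞 K ⧸ v.asIdeal) := by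
  rw [Ideal.absNorm_apply, Submodule.cardQuot_apply]

theorem fr_finite (v : HeightOneSpectrum (𝓞 K)) : Finite (𝓞 K ⧸ v.asIdeal) :=
  Ideal.finiteQuotientOfFreeOfNeBot v.asIdeal v.ne_bot

theorem fr_one_lt (v : HeightOneSpectrum (𝓞 K)) : 1 < Ideal.absNorm v.asIdeal := by
  rw [fr_card]
  have := fr_finite v
  have hv := v.isPrime
  have : Nontrivial (𝓞 K ⧸ v.asIdeal) := Ideal.Quotient.nontrivial_iff.2 hv.ne_top
  exact Finite.one_lt_card

/-- Fermat's theorem in the residue field -/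
theorem fr_fermat (v : HeightOneSpectrum (𝓞 K)) {z : 𝓞 K} (hz : z ∉ v.asIdeal) :
    z ^ (Ideal.absNorm v.asIdeal - 1) - 1 ∈ v.asIdeal := by
  have hvm : v.asIdeal.IsMaximal := v.isMaximal
  have := fr_finite v
  let _ : Field (𝓞 K ⧸ v.asIdeal) := Ideal.Quotient.field v.asIdeal
  let _ : Fintype (𝓞 K ⧸ v.asIdeal) := Fintype.ofFinite _
  have h1 : Ideal.Quotient.mk v.asIdeal z ≠ 0 := by
    intro h
    exact hz (Ideal.Quotient.eq_zero_iff_mem.1 h)
  have h2 := FiniteField.pow_card_sub_one_eq_one (Ideal.Quotient.mk v.asIdeal z) h1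
  rw [← Ideal.Quotient.mk_eq_mk_iff_sub_mem, map_pow, map_one, fr_card, Nat.card_eq_fintype_card]
  exact h2

/-- `p`-th powers in the residue field -/
theorem fr_pow (v : HeightOneSpectrum (𝓞 K)) {p m : ℕ} (hm : Ideal.absNorm v.asIdeal - 1 = p * m)
    {α : 𝓞 K} (hα : α ∉ v.asIdeal) (h : α ^ m - 1 ∈ v.asIdeal) :
    ∃ z : 𝓞 K, α - z ^ p ∈ v.asIdeal := by
  have hvm : v.asIdeal.IsMaximal := v.isMaximal
  have := fr_finite v
  let _ : Field (𝓞 K ⧸ v.asIdeal) := Ideal.Quotient.field v.asIdeal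
  have h1 : Ideal.Quotient.mk v.asIdeal α ≠ 0 := by
    intro h
    exact hα (Ideal.Quotient.eq_zero_iff_mem.1 h)
  obtain ⟨a, ha⟩ : ∃ a : (𝓞 K ⧸ v.asIdeal)ˣ, (a : 𝓞 K ⧸ v.asIdeal) =
      Ideal.Quotient.mk v.asIdeal α := ⟨Units.mk0 _ h1, rfl⟩
  have h2 : a ^ m = 1 := by
    apply Units.ext
    rw [Units.val_pow_eq_pow_val, ha, Units.val_one, ← map_pow, ← map_one (Ideal.Quotient.mk _)]
    exact (Ideal.Quotient.mk_eq_mk_iff_sub_mem _ _).2 h
  obtain ⟨g, hg⟩ := IsCyclic.exists_generator (α := (𝓞 K ⧸ v.asIdeal)ˣ)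
  have h3 : orderOf g = p * m := by
    rw [orderOf_eq_card_of_forall_mem_zpowers hg, Nat.card_units, ← fr_card, hm]
  obtain ⟨i, hi⟩ := hg a
  simp only at hi
  have hpm : 0 < p * m := by
    have := fr_one_lt v
    omega
  have hm0 : (m : ℤ) ≠ 0 := by
    intro h0
    have : m = 0 := by exact_mod_cast h0
    rw [this, mul_zero] at hpm
    exact lt_irrefl _ hpm
  have h4 : ((p * m : ℕ) : ℤ) ∣ i * m := by
    rw [← h3, orderOf_dvd_iff_zpow_eq_one, zpow_mul, hi, zpow_natCast, h2]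
  obtain ⟨j, hj⟩ : (p : ℤ) ∣ i := by
    push_cast at h4
    exact Int.dvd_of_mul_dvd_mul_right hm0 h4
  obtain ⟨z, hz⟩ := Ideal.Quotient.mk_surjective ((g ^ j : (𝓞 K ⧸ v.asIdeal)ˣ) : 𝓞 K ⧸ v.asIdeal)
  refine ⟨z, ?_⟩
  rw [← Ideal.Quotient.mk_eq_mk_iff_sub_mem, map_pow, hz, ← ha, ← hi, hj,
    ← Units.val_pow_eq_pow_val]
  congr 1
  rw [mul_comm, zpow_mul, zpow_natCast]

end aux

theorem s_fr : S_fr := by
  intro K _ _ p hpf w I v hvw hpv
  have hp0 : 0 < p := hpf.out.pos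
  obtain ⟨q, hq⟩ : ∃ q : ℕ, q = Ideal.absNorm v.asIdeal := ⟨_, rfl⟩
  have hq1 : 1 < q := by
    rw [hq]
    exact fr_one_lt v
  -- facts on a maximal ideal above `v`
  have hQp : ∀ Q : Ideal (𝓞 (AlgebraicClosure K)),
      Q.comap (algebraMap (𝓞 K) (𝓞 (AlgebraicClosure K))) = v.asIdeal →
      (p : 𝓞 (AlgebraicClosure K)) ∉ Q := by
    intro Q hQ h
    apply hpv
    rw [← hQ, Ideal.mem_comap, map_natCast]
    exact h
  have hroot : ∀ Q : Ideal (𝓞 (AlgebraicClosure K)), Q.IsMaximal →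
      Q.comap (algebraMap (𝓞 K) (𝓞 (AlgebraicClosure K))) = v.asIdeal →
      ∀ α ∈ Lam p w I, ∀ β' : 𝓞 (AlgebraicClosure K),
        β' ^ p = algebraMap (𝓞 K) (𝓞 (AlgebraicClosure K)) α → β' ∉ Q := by
    intro Q _ hQ α hα β' hβ' h
    apply fr_notMem hvw hα
    rw [← hQ, Ideal.mem_comap, ← hβ']
    exact Q.pow_mem_of_mem h p hp0
  rw [← hq]
  constructor
  · rintro ⟨hdvd, hLam⟩
    obtain ⟨m, hm⟩ := hdvd
    obtain ⟨σ, hσ⟩ := (Pool.Agent.W401.Frob.main K).1 v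
    refine ⟨σ, ?_, hσ⟩
    obtain ⟨Q, hQm, hQv, hQ⟩ := hσ
    have hQpr := hQm.isPrime
    rintro β ⟨α, hα, hβ⟩
    obtain ⟨β', hβc, hβp⟩ := fr_integral hp0 hβ
    have hβQ := hroot Q hQm hQv α hα β' hβp
    obtain ⟨z, hz⟩ := hLam α hα
    have hzv : z ∉ v.asIdeal := by
      intro h
      apply fr_notMem hvw hα
      have h1 : α = (α - z ^ p) + z ^ p := by ring
      rw [h1]
      exact v.asIdeal.add_mem hz (v.asIdeal.pow_mem_of_mem h p hp0)
    -- `α ^ m ≡ 1`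
    have hαm : α ^ m - 1 ∈ v.asIdeal := by
      have h1 : α ^ m - (z ^ p) ^ m ∈ v.asIdeal :=
        v.asIdeal.mem_of_dvd (sub_dvd_pow_sub_pow α (z ^ p) m) hz
      have h2 := fr_fermat v hzv
      rw [← hq, hm, pow_mul] at h2
      have h3 : α ^ m - 1 = (α ^ m - (z ^ p) ^ m) + ((z ^ p) ^ m - 1) := by ring
      rw [h3]
      exact v.asIdeal.add_mem h1 h2
    have hαm' : (β' ^ p) ^ m - 1 ∈ Q := by
      rw [← hQv, Ideal.mem_comap, map_sub, map_pow, map_one] at hαm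
      rw [hβp]
      exact hαm
    have h4 : β' ^ q - β' ∈ Q := by
      have h5 : β' ^ q - β' = β' * ((β' ^ p) ^ m - 1) := by
        have h6 : q = (q - 1) + 1 := by omega
        rw [← pow_mul, ← hm]
        conv_lhs => rw [h6, pow_succ]
        ring
      rw [h5]
      exact Q.mul_mem_left _ hαm'
    have h7 : σ • β' - β' ∈ Q := by
      have h8 := hQ β'
      rw [← hq] at h8
      have h9 : σ • β' - β' = (σ • β' - β' ^ q) + (β' ^ q - β') := by ring
      rw [h9]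
      exact Q.add_mem h8 h4
    have hβ0 : β ≠ 0 := by
      rintro rfl
      apply hβQ
      have : β' = 0 := RingOfIntegers.ext hβc
      rw [this]
      exact Q.zero_mem
    -- the root of unity
    have hξp : (σ β / β) ^ p = 1 := by
      rw [div_pow, ← map_pow, hβ]
      have h10 : σ (algebraMap (𝓞 K) (AlgebraicClosure K) α) =
          algebraMap (𝓞 K) (AlgebraicClosure K) α := σ.commutes (α : K)
      rw [h10, ← hβ]
      exact div_self (pow_ne_zero p hβ0)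
    have hξi : IsIntegral ℤ (σ β / β) := by
      refine IsIntegral.of_pow hp0 ?_
      rw [hξp]
      exact isIntegral_one
    obtain ⟨ξ, hξ⟩ : ∃ ξ : 𝓞 (AlgebraicClosure K), (ξ : AlgebraicClosure K) = σ β / β :=
      ⟨⟨σ β / β, hξi⟩, rfl⟩
    have hξ1 : ξ ^ p = 1 := by
      apply RingOfIntegers.ext
      have h11 : ((ξ ^ p : 𝓞 (AlgebraicClosure K)) : AlgebraicClosure K) =
          (ξ : AlgebraicClosure K) ^ p := rfl
      rw [h11, hξ, hξp]
      rfl
    have hξ2 : σ • β' = ξ * β' := by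
      apply RingOfIntegers.ext
      have h11 : ((ξ * β' : 𝓞 (AlgebraicClosure K)) : AlgebraicClosure K) =
          (ξ : AlgebraicClosure K) * (β' : AlgebraicClosure K) := rfl
      rw [h11, fr_coe_smul, hξ, hβc, div_mul_cancel₀ _ hβ0]
    have hξ3 : ξ - 1 ∈ Q := by
      have h12 : (ξ - 1) * β' ∈ Q := by
        rw [sub_mul, one_mul, ← hξ2]
        exact h7
      exact (hQpr.mem_or_mem h12).resolve_right hβQ
    have hξ4 := fr_root (hQp Q hQv) hξ1 hξ3
    have h13 : σ β / β = 1 := by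
      rw [← hξ, hξ4]
      rfl
    rwa [div_eq_one_iff_eq hβ0] at h13
  · rintro ⟨σ, hσU, Q, hQm, hQv, hQ⟩
    have hQpr := hQm.isPrime
    rw [← hq] at hQ
    -- for integral elements fixed by `σ`
    have hfix : ∀ x : 𝓞 (AlgebraicClosure K), σ (x : AlgebraicClosure K) = x → x ∉ Q →
        x ^ (q - 1) - 1 ∈ Q := by
      intro x hx hxQ
      have h1 := hQ x
      have h2 : σ • x = x := RingOfIntegers.ext hx
      rw [h2] at h1
      have h3 : x - x ^ q = -(x * (x ^ (q - 1) - 1)) := by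
        have h6 : q = (q - 1) + 1 := by omega
        conv_lhs => rw [h6, pow_succ]
        ring
      rw [h3, neg_mem_iff] at h1
      exact (hQpr.mem_or_mem h1).resolve_left hxQ
    have hdvd : p ∣ q - 1 := by
      have : NeZero ((p : ℕ) : AlgebraicClosure K) := ⟨by exact_mod_cast hp0.ne'⟩
      obtain ⟨ζ, hζ⟩ := IsAlgClosed.exists_root (Polynomial.cyclotomic p (AlgebraicClosure K)) (by
        rw [Polynomial.degree_cyclotomic]
        have := Nat.totient_pos.2 hp0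
        exact_mod_cast this.ne')
      rw [Polynomial.isRoot_cyclotomic_iff] at hζ
      have h1 : ζ ^ p = algebraMap (𝓞 K) (AlgebraicClosure K) 1 := by
        rw [map_one]
        exact hζ.pow_eq_one
      obtain ⟨ζ', hc, hpow⟩ := fr_integral hp0 h1
      have h2 : σ (ζ' : AlgebraicClosure K) = ζ' := by
        rw [hc]
        exact hσU ζ ⟨1, fr_one_mem p w I, h1⟩
      have h3 : ζ' ∉ Q := hroot Q hQm hQv 1 (fr_one_mem p w I) ζ' hpow
      have h4 := hfix ζ' h2 h3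
      rw [map_one] at hpow
      have h5 : (ζ' ^ (q - 1)) ^ p = 1 := by
        rw [← pow_mul, mul_comm, pow_mul, hpow, one_pow]
      have h6 := fr_root (hQp Q hQv) h5 h4
      have h7 : ζ ^ (q - 1) = 1 := by
        have h8 := congrArg (fun x : 𝓞 (AlgebraicClosure K) => (x : AlgebraicClosure K)) h6
        have h9 : ((ζ' ^ (q - 1) : 𝓞 (AlgebraicClosure K)) : AlgebraicClosure K) =
          (ζ' : AlgebraicClosure K) ^ (q - 1) := rfl
        rw [h9, hc] at h8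
        exact h8
      exact (hζ.pow_eq_one_iff_dvd _).1 h7
    refine ⟨hdvd, fun α hα => ?_⟩
    obtain ⟨m, hm⟩ := hdvd
    obtain ⟨β, hβ⟩ := IsAlgClosed.exists_pow_nat_eq (algebraMap (𝓞 K) (AlgebraicClosure K) α) hp0
    obtain ⟨β', hβc, hβp⟩ := fr_integral hp0 hβ
    have h2 : σ (β' : AlgebraicClosure K) = β' := by
      rw [hβc]
      exact hσU β ⟨α, hα, hβ⟩
    have h3 := hroot Q hQm hQv α hα β' hβp
    have h4 := hfix β' h2 h3
    rw [hm, pow_mul, hβp, ← map_pow, ← map_one (algebraMap (𝓞 K) (𝓞 (AlgebraicClosure K))),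
      ← map_sub, ← Ideal.mem_comap, hQv] at h4
    exact fr_pow v (by rw [← hq]; exact hm) (fr_notMem hvw hα) h4

end Pool.Agent.H517.D
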