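import Pool.Agent.H517.D.Def

/-!
# Density of the tame primes which can be added: part KUM
-/

set_option autoImplicit false
set_option linter.unusedSectionVars false

namespace Pool.Agent.H517.D

open NumberField IsDedekindDomain Filter Topology Pool.Agent.W401.Cheb


/-

KUM (Kummer theory without roots of unity in the base field). Let μ = {ζ | ζ^p = 1} ⊂ K̄, F = K(μ) = IntermediateField.adjoin K μ, G1 = F.fixingSubgroup; V := VV p Γ ≤ G1 (as 1 ∈ Γ); d = [F : K] = cyc p K,
G1.index = d (IntermediateField.finrank_eq_fixingSubgroup_index). d divides p - 1 or at least is prime to p: (e.g. G → (ZMod p)ˣ, the action on μ, has kernel G1, so d = card (G/G1) divides p - 1).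
V is OPEN: Γ / (Kˣ)^p is finite (relIndex ≠ 0); for each of finitely many representatives γ choose a root β_γ; then V is the fixing subgroup of the finite extension K(μ, β_γ): if σ fixes μ and β_γ, and
β^p = γ δ^p then β = ξ β_γ δ with ξ ∈ μ. V is normal in G1 (even in G).
G1/V: for σ ∈ G1 and γ ∈ Γ let χ_σ(γ) := σ β / β, β^p = γ; it is in μ and does not depend on β (σ fixes μ), multiplicative in γ, trivial for γ ∈ (Kˣ)^p (β ∈ K·μ), and multiplicative in σ ∈ G1 (as χ_τ(γ) ∈ μ is fixed by σ).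
So there is a homomorphism G1 → Hom(Γ/(Kˣ)^p, μ_p) with kernel exactly V. So card (G1/V) ≤ card Hom(Γ/(Kˣ)^p, μ_p) = card (Γ/(Kˣ)^p) =: n (Γ/(Kˣ)^p is a finite abelian group of exponent p; Mathlib:
CommGroup.card_monoidHom_of_hasEnoughRootsOfUnity or similar; also Pool.Agent.NH7.GU.ChA.ev_surj in the imported file could be used: it says that for a finite F_p-space A of homomorphisms G → ZMod p the
evaluation G → Dual(A) is surjective; this gives directly the whole claim: G1/V ≅ Dual(A) for A = {σ ↦ log_ζ χ_σ(γ)}, A ≅ Γ/(Kˣ)^p by the injectivity below).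
INJECTIVITY: if γ ∈ Γ and χ_σ(γ) = 1 for all σ ∈ G1, then β ∈ F (β is fixed by G1 = F.fixingSubgroup; InfiniteGalois.fixedField_fixingSubgroup or IntermediateField version, K̄/K is Galois), so γ = β^p with β ∈ F, so
taking norms γ^d = N_{F/K}(γ) = (N β)^p is in (Kˣ)^p; as d is prime to p and γ^p ∈ (Kˣ)^p, γ ∈ (Kˣ)^p. So Γ/(Kˣ)^p → Hom(G1/V, μ_p) is injective, n ≤ card Hom(G1/V, μ_p) = card (G1/V).
(Alternatively avoid norms: H1(Gal(F/K), μ_p) = 0.) So card (G1/V) = n, V.index = (V.relIndex G1) * G1.index (Subgroup.relIndex_mul_index) = n d.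

-/
set_option linter.unusedSectionVars false

section kum

variable {K : Type} [Field K] [NumberField K]

theorem kum_fix (σ : GK K) (S : Set (AlgebraicClosure K)) :
    σ ∈ (IntermediateField.adjoin K S).fixingSubgroup ↔ ∀ x ∈ S, σ x = x := by
  rw [IntermediateField.mem_fixingSubgroup_iff]
  constructor
  · intro h x hx
    exact h x (IntermediateField.subset_adjoin K S hx)
  · intro h x hx
    induction hx using IntermediateField.adjoin_induction with
    | mem x hx => exact h x hx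
    | algebraMap x => exact σ.commutes x
    | add x y _ _ hx hy => rw [map_add, hx, hy]
    | inv x _ hx => rw [map_inv₀, hx]
    | mul x y _ _ hx hy => rw [map_mul, hx, hy]

theorem kum_VV (p : ℕ) (Γ : Subgroup Kˣ) : VV p Γ = (IntermediateField.adjoin K
    {β : AlgebraicClosure K | ∃ γ ∈ Γ, β ^ p = algebraMap K (AlgebraicClosure K) γ}).fixingSubgroup := by
  ext σ
  rw [kum_fix]
  exact Iff.rfl

/-- the field of the roots of unity -/
noncomputable def kumF (p : ℕ) (K : Type) [Field K] : IntermediateField K (AlgebraicClosure K) :=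
  IntermediateField.adjoin K {ζ : AlgebraicClosure K | ζ ^ p = 1}

theorem kum_G1 (p : ℕ) (σ : GK K) :
    σ ∈ (kumF p K).fixingSubgroup ↔ ∀ ζ : AlgebraicClosure K, ζ ^ p = 1 → σ ζ = ζ := kum_fix σ _

theorem kum_deg (p : ℕ) [hp : Fact p.Prime] :
    FiniteDimensional K (kumF p K) ∧ Module.finrank K (kumF p K) < p := by
  have : NeZero ((p : ℕ) : K) := ⟨Nat.cast_ne_zero.2 hp.1.ne_zero⟩
  obtain ⟨ζ, hζ⟩ := HasEnoughRootsOfUnity.exists_primitiveRoot (AlgebraicClosure K) p
  have hint : IsIntegral K ζ := Algebra.IsIntegral.isIntegral ζ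
  have hF : kumF p K = IntermediateField.adjoin K {ζ} := by
    apply le_antisymm
    · unfold kumF
      rw [IntermediateField.adjoin_le_iff]
      intro ξ hξ
      obtain ⟨i, -, rfl⟩ := hζ.eq_pow_of_pow_eq_one hξ
      exact pow_mem (IntermediateField.mem_adjoin_simple_self K ζ) i
    · rw [IntermediateField.adjoin_le_iff, Set.singleton_subset_iff]
      exact IntermediateField.subset_adjoin K _ hζ.pow_eq_one
  rw [hF]
  refine ⟨IntermediateField.adjoin.finiteDimensional hint, ?_⟩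
  rw [IntermediateField.adjoin.finrank hint]
  have hd : minpoly K ζ ∣ Polynomial.cyclotomic p K := by
    apply minpoly.dvd
    rw [Polynomial.aeval_def, Polynomial.eval₂_eq_eval_map, Polynomial.map_cyclotomic]
    exact hζ.isRoot_cyclotomic hp.1.pos
  have h1 := Polynomial.natDegree_le_of_dvd hd (Polynomial.cyclotomic_ne_zero p K)
  rw [Polynomial.natDegree_cyclotomic, Nat.totient_prime hp.1] at h1
  have := hp.1.one_lt
  omega

theorem kum_inj (p : ℕ) [hp : Fact p.Prime] (γ : Kˣ) (β : AlgebraicClosure K)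
    (hβ : β ^ p = algebraMap K (AlgebraicClosure K) γ)
    (h : ∀ σ ∈ (kumF p K).fixingSubgroup, σ β = β) : γ ∈ pw Kˣ p := by
  obtain ⟨hfd, hlt⟩ := kum_deg (K := K) p
  have hmem : β ∈ kumF p K := by
    rw [← InfiniteGalois.fixedField_fixingSubgroup (kumF p K),
      IntermediateField.mem_fixedField_iff]
    exact h
  obtain ⟨b, hb⟩ : ∃ b : kumF p K, b = ⟨β, hmem⟩ := ⟨_, rfl⟩
  have hbp : b ^ p = algebraMap K (kumF p K) γ := by
    apply Subtype.ext
    rw [hb]
    exact hβ
  have hn : (Algebra.norm K b) ^ p = (γ : K) ^ (Module.finrank K (kumF p K)) := by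
    rw [← map_pow, hbp, Algebra.norm_algebraMap]
  have hb0 : b ≠ 0 := by
    intro h0
    rw [h0, zero_pow hp.1.ne_zero] at hbp
    have h1 : algebraMap K (kumF p K) γ ≠ 0 := by
      rw [Ne, map_eq_zero]
      exact γ.ne_zero
    exact h1 hbp.symm
  have hc0 : Algebra.norm K b ≠ 0 := Algebra.norm_ne_zero_iff.2 hb0
  obtain ⟨c, hc⟩ : ∃ c : Kˣ, (c : K) = Algebra.norm K b := ⟨Units.mk0 _ hc0, rfl⟩
  have h1 : γ ^ (Module.finrank K (kumF p K)) ∈ pw Kˣ p := by
    refine ⟨c, ?_⟩
    apply Units.ext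
    rw [powMonoidHom_apply, Units.val_pow_eq_pow_val, Units.val_pow_eq_pow_val, hc, hn]
  have h2 : γ ^ p ∈ pw Kˣ p := ⟨γ, rfl⟩
  have hpos : 0 < Module.finrank K (kumF p K) := Module.finrank_pos
  have hcop : Nat.Coprime (Module.finrank K (kumF p K)) p := by
    rw [Nat.coprime_comm, hp.1.coprime_iff_not_dvd]
    intro hd
    have := Nat.le_of_dvd hpos hd
    omega
  obtain ⟨u, v, huv⟩ := hcop.isCoprime
  have h3 : γ = (γ ^ (Module.finrank K (kumF p K))) ^ u * (γ ^ p) ^ v := by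
    rw [← zpow_natCast, ← zpow_natCast, ← zpow_mul, ← zpow_mul, ← zpow_add]
    rw [mul_comm _ u, mul_comm _ v, huv, zpow_one]
  rw [h3]
  exact (pw Kˣ p).mul_mem ((pw Kˣ p).zpow_mem h1 u) ((pw Kˣ p).zpow_mem h2 v)

/-- the action on the units -/
noncomputable def kumA (σ : GK K) : (AlgebraicClosure K)ˣ →* (AlgebraicClosure K)ˣ :=
  Units.map (σ : AlgebraicClosure K →* AlgebraicClosure K)

theorem kumA_val (σ : GK K) (b : (AlgebraicClosure K)ˣ) :
    ((kumA σ b : (AlgebraicClosure K)ˣ) : AlgebraicClosure K) = σ b := rfl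

theorem kumA_mul (σ τ : GK K) (b : (AlgebraicClosure K)ˣ) : kumA (σ * τ) b = kumA σ (kumA τ b) := by
  apply Units.ext
  rw [kumA_val, kumA_val, kumA_val, AlgEquiv.mul_apply]

theorem kumA_one (b : (AlgebraicClosure K)ˣ) : kumA (1 : GK K) b = b := by
  apply Units.ext
  rfl

theorem kumA_root {p : ℕ} {σ : GK K} (hσ : σ ∈ (kumF p K).fixingSubgroup)
    {b : (AlgebraicClosure K)ˣ} (hb : b ^ p = 1) : kumA σ b = b := by
  apply Units.ext
  rw [kumA_val]
  apply (kum_G1 p σ).1 hσ
  rw [← Units.val_pow_eq_pow_val, hb, Units.val_one]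

theorem kum_indep {p : ℕ} {σ : GK K} (hσ : σ ∈ (kumF p K).fixingSubgroup)
    {b b' : (AlgebraicClosure K)ˣ} (h : b ^ p = b' ^ p) : kumA σ b / b = kumA σ b' / b' := by
  have h1 : (b / b') ^ p = 1 := by rw [div_pow, h, div_self']
  have h2 := kumA_root hσ h1
  rw [map_div] at h2
  rw [div_eq_div_iff_mul_eq_mul] at h2 ⊢
  rw [h2, mul_comm]

/-- the embedding of the units -/
noncomputable def kumE (K : Type) [Field K] : Kˣ →* (AlgebraicClosure K)ˣ :=
  Units.map (algebraMap K (AlgebraicClosure K) : K →* AlgebraicClosure K)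

theorem kumA_E (σ : GK K) (γ : Kˣ) : kumA σ (kumE K γ) = kumE K γ := by
  apply Units.ext
  rw [kumA_val]
  exact σ.commutes _

theorem kum_ex (p : ℕ) [hp : Fact p.Prime] (γ : Kˣ) :
    ∃ b : (AlgebraicClosure K)ˣ, b ^ p = kumE K γ := by
  obtain ⟨z, hz⟩ := IsAlgClosed.exists_pow_nat_eq (algebraMap K (AlgebraicClosure K) γ) hp.1.pos
  have h0 : z ≠ 0 := by
    intro h0
    rw [h0, zero_pow hp.1.ne_zero] at hz
    have h1 : algebraMap K (AlgebraicClosure K) γ ≠ 0 := by
      rw [Ne, map_eq_zero]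
      exact γ.ne_zero
    exact h1 hz.symm
  refine ⟨Units.mk0 z h0, Units.ext ?_⟩
  rw [Units.val_pow_eq_pow_val, Units.val_mk0, hz]
  rfl

end kum

theorem s_kum : S_kum := by
  intro K _ _ p hp Γ hΓ hn
  obtain ⟨G1, hG1⟩ : ∃ G1 : Subgroup (GK K), G1 = (kumF p K).fixingSubgroup := ⟨_, rfl⟩
  choose β hβ using fun γ : Γ => kum_ex p (γ : Kˣ)
  obtain ⟨N, hN⟩ : ∃ N : Subgroup Γ, N = (pw Kˣ p).subgroupOf Γ := ⟨_, rfl⟩
  have hVle : VV p Γ ≤ G1 := by
    intro σ hσ
    rw [hG1, kum_G1]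
    intro ζ hζ
    refine hσ ζ ⟨1, Γ.one_mem, ?_⟩
    rw [hζ, Units.val_one, map_one]
  -- the characters
  obtain ⟨χ, hχ⟩ : ∃ χ : G1 → Γ →* (AlgebraicClosure K)ˣ, ∀ (σ : G1) (γ : Γ),
      χ σ γ = kumA (σ : GK K) (β γ) / β γ := by
    refine ⟨fun σ => MonoidHom.mk' (fun γ => kumA (σ : GK K) (β γ) / β γ) ?_, fun σ γ => rfl⟩
    intro γ γ'
    have hσ : (σ : GK K) ∈ (kumF p K).fixingSubgroup := hG1 ▸ σ.2
    have h1 : β (γ * γ') ^ p = (β γ * β γ') ^ p := by
      rw [mul_pow, hβ, hβ, hβ, Subgroup.coe_mul, map_mul]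
    rw [kum_indep hσ h1, map_mul, mul_div_mul_comm]
  have hχN : ∀ σ : G1, N ≤ (χ σ).ker := by
    intro σ γ hγ
    rw [hN, Subgroup.mem_subgroupOf] at hγ
    obtain ⟨δ, hδ⟩ := hγ
    have hσ : (σ : GK K) ∈ (kumF p K).fixingSubgroup := hG1 ▸ σ.2
    rw [MonoidHom.mem_ker, hχ]
    have h1 : β γ ^ p = (kumE K δ) ^ p := by
      rw [hβ, ← map_pow, ← hδ]
      rfl
    rw [kum_indep hσ h1, kumA_E, div_self']
  obtain ⟨Φ, hΦ⟩ : ∃ Φ : G1 →* ((Γ ⧸ N) →* (AlgebraicClosure K)ˣ), ∀ (σ : G1) (γ : Γ),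
      Φ σ (QuotientGroup.mk γ) = χ σ γ := by
    refine ⟨MonoidHom.mk' (fun σ => QuotientGroup.lift N (χ σ) (hχN σ)) ?_, fun σ γ => rfl⟩
    intro σ τ
    apply QuotientGroup.monoidHom_ext
    apply MonoidHom.ext
    intro γ
    show χ (σ * τ) γ = χ σ γ * χ τ γ
    have hσ : (σ : GK K) ∈ (kumF p K).fixingSubgroup := hG1 ▸ σ.2
    have hτ : (τ : GK K) ∈ (kumF p K).fixingSubgroup := hG1 ▸ τ.2
    rw [hχ, hχ, hχ, Subgroup.coe_mul, kumA_mul]
    have h1 : (kumA (τ : GK K) (β γ) / β γ) ^ p = 1 := by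
      rw [div_pow, ← map_pow, hβ, kumA_E, div_self']
    have h2 := kumA_root hσ h1
    rw [map_div] at h2
    rw [← h2]
    rw [mul_comm, div_mul_div_cancel]
  have hker : Φ.ker = (VV p Γ).subgroupOf G1 := by
    ext σ
    rw [MonoidHom.mem_ker, Subgroup.mem_subgroupOf]
    have hσ : (σ : GK K) ∈ (kumF p K).fixingSubgroup := hG1 ▸ σ.2
    constructor
    · intro h b ⟨γ, hγ, hb⟩
      have h1 : χ σ ⟨γ, hγ⟩ = 1 := by
        rw [← hΦ, h]; rfl
      rw [hχ] at h1
      have h0 : b ≠ 0 := by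
        intro h0
        rw [h0, zero_pow hp.1.ne_zero] at hb
        have h1 : algebraMap K (AlgebraicClosure K) γ ≠ 0 := by
          rw [Ne, map_eq_zero]
          exact γ.ne_zero
        exact h1 hb.symm
      have h2 : (Units.mk0 b h0) ^ p = β ⟨γ, hγ⟩ ^ p := by
        rw [hβ]
        apply Units.ext
        rw [Units.val_pow_eq_pow_val, Units.val_mk0, hb]
        rfl
      have h3 := kum_indep hσ h2
      rw [h1, div_eq_one] at h3
      have h4 := congrArg Units.val h3
      rwa [kumA_val, Units.val_mk0] at h4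
    · intro h
      apply QuotientGroup.monoidHom_ext
      apply MonoidHom.ext
      intro γ
      show Φ σ (QuotientGroup.mk γ) = 1
      rw [hΦ, hχ, div_eq_one]
      apply Units.ext
      rw [kumA_val]
      refine h _ ⟨γ, γ.2, ?_⟩
      have h1 := congrArg Units.val (hβ γ)
      rw [Units.val_pow_eq_pow_val] at h1
      exact h1
  have hcardA : Nat.card (Γ ⧸ N) = (pw Kˣ p).relIndex Γ := by
    rw [hN]
    rfl
  have hfinA : Finite (Γ ⧸ N) := Nat.finite_of_card_ne_zero (by rw [hcardA]; exact hn)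
  have henough : ∀ (A : Type) [CommGroup A] [Finite A],
      Nat.card (A →* (AlgebraicClosure K)ˣ) = Nat.card A := by
    intro A _ _
    have h1 : NeZero ((Monoid.exponent A : ℕ) : K) :=
      ⟨Nat.cast_ne_zero.2 Monoid.exponent_ne_zero_of_finite⟩
    exact CommGroup.card_monoidHom_of_hasEnoughRootsOfUnity A (AlgebraicClosure K)
  have hfinH : Finite ((Γ ⧸ N) →* (AlgebraicClosure K)ˣ) := by
    apply Nat.finite_of_card_ne_zero
    have h1 : Nat.card ((Γ ⧸ N) →* (AlgebraicClosure K)ˣ) = Nat.card (Γ ⧸ N) := henough (Γ ⧸ N)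
    rw [h1, hcardA]
    exact hn
  have hle1 : Nat.card Φ.range ≤ Nat.card (Γ ⧸ N) := by
    rw [← henough (Γ ⧸ N)]
    exact Subgroup.card_le_card_group _
  have hle2 : Nat.card (Γ ⧸ N) ≤ Nat.card Φ.range := by
    rw [← henough Φ.range]
    have hfin2 : Finite (Φ.range →* (AlgebraicClosure K)ˣ) := by
      apply Nat.finite_of_card_ne_zero
      rw [henough]
      exact Nat.card_pos.ne'
    obtain ⟨Ψ, hΨ⟩ : ∃ Ψ : (Γ ⧸ N) →* (Φ.range →* (AlgebraicClosure K)ˣ),
        ∀ a (φ : Φ.range), Ψ a φ = φ.1 a := by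
      refine ⟨MonoidHom.mk' (fun a => MonoidHom.mk' (fun φ => φ.1 a) (fun φ φ' => rfl)) ?_,
        fun a φ => rfl⟩
      intro a a'
      apply MonoidHom.ext
      intro φ
      exact map_mul φ.1 a a'
    have hinj : Function.Injective Ψ := by
      rw [injective_iff_map_eq_one]
      intro a ha
      obtain ⟨γ, rfl⟩ := QuotientGroup.mk_surjective a
      rw [QuotientGroup.eq_one_iff, hN, Subgroup.mem_subgroupOf]
      refine kum_inj p (γ : Kˣ) (β γ : AlgebraicClosure K) ?_ ?_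
      · have h1 := congrArg Units.val (hβ γ)
        rw [Units.val_pow_eq_pow_val] at h1
        exact h1
      · intro σ hσ
        have h2 : Ψ (QuotientGroup.mk γ) ⟨Φ ⟨σ, hG1 ▸ hσ⟩, ⟨_, rfl⟩⟩ = 1 := by
          rw [ha]; rfl
        rw [hΨ, hΦ, hχ, div_eq_one] at h2
        have h3 := congrArg Units.val h2
        rwa [kumA_val] at h3
    exact Nat.card_le_card_of_injective Ψ hinj
  have hrel : (VV p Γ).relIndex G1 = (pw Kˣ p).relIndex Γ := by
    unfold Subgroup.relIndex
    rw [← hker, Subgroup.index_ker, le_antisymm hle1 hle2, hcardA]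
    rfl
  have hindex : (VV p Γ).index = cyc p K * (pw Kˣ p).relIndex Γ := by
    rw [← Subgroup.relIndex_mul_index hVle, hrel, hG1,
      ← IntermediateField.finrank_eq_fixingSubgroup_index, mul_comm]
    rfl
  refine ⟨?_, hindex⟩
  have hfi : (VV p Γ).FiniteIndex := by
    refine ⟨?_⟩
    rw [hindex]
    have hfd := (kum_deg (K := K) p).1
    have hpos : 0 < Module.finrank K (kumF p K) := Module.finrank_pos
    exact Nat.mul_ne_zero hpos.ne' hn
  apply Subgroup.isOpen_of_isClosed_of_finiteIndex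
  rw [kum_VV]
  exact InfiniteGalois.fixingSubgroup_isClosed _

end Pool.Agent.H517.D
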