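import Pool.Agent.H517.D.Def

/-!
# Density of the tame primes which can be added: part ONE
-/

set_option autoImplicit false
set_option linter.unusedSectionVars false

namespace Pool.Agent.H517.D

open NumberField IsDedekindDomain Filter Topology Pool.Agent.W401.Cheb


/-

ONE. R := 𝓞 K ⧸ w'^3. Since absNorm w' = p (prime), p ∈ w', p ∉ w'^2 (w^e * w' = (p), w ≠ w' both maximal): the ring R has p^3 elements (absNorm multiplicative) and characteristic p^3 (p^2 ∉ w'^3 : as (p) = w^e w' the ideal (p^2) = w^(2e) w'^2 is not divisible by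
w'^3), so ZMod (p^3) → R is injective (ZMod.castHom), and bijective by counting. So Rˣ ≅ (ZMod (p^3))ˣ is cyclic of order p^2 (p-1) (p odd; ZMod.isCyclic_units_of_prime_pow or similar in Mathlib: `ZMod.isCyclic_units_iff`). α is a unit in R (since (α) = w^k). Claim: the class of α
is not a p-th power in Rˣ: if α ≡ z^p mod w'^3, then α^(p-1) ≡ z^(p(p-1)) and z^(p (p-1)) ≡ 1 mod w'^2 (z^(p-1) ≡ 1 mod w', so its p-th power is ≡ 1 mod w'^2 as p ∈ w'), so α^(p-1) - 1 ∈ w'^2, contradiction. So, g a generator of Rˣ,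
α = g^a with p ∤ a, x = g^c; choose i with a i + c ≡ 0 mod p, then x α^i = (g^s)^p in R; lift g^s to y ∈ 𝓞 K; α' := α^i, (α') = w^(k i).

-/

section aux_one

variable {K : Type} [Field K] [NumberField K]

theorem one_coprime {w w' : HeightOneSpectrum (𝓞 K)} (h : w ≠ w') :
    IsCoprime w.asIdeal w'.asIdeal := by
  rw [Ideal.isCoprime_iff_sup_eq]
  exact w.isMaximal.coprime_of_ne w'.isMaximal fun h' => h (HeightOneSpectrum.ext h')

theorem one_unit {I : Ideal (𝓞 K)} {x : 𝓞 K} (h : IsCoprime (Ideal.span {x}) I) :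
    IsUnit (Ideal.Quotient.mk I x) := by
  rw [Ideal.isCoprime_iff_exists] at h
  obtain ⟨a, ha, b, hb, hab⟩ := h
  obtain ⟨c, rfl⟩ := Ideal.mem_span_singleton'.1 ha
  refine IsUnit.of_mul_eq_one (Ideal.Quotient.mk I c) ?_
  rw [← map_mul, ← map_one (Ideal.Quotient.mk I), Ideal.Quotient.eq, ← hab]
  have : x * c - (c * x + b) = -b := by ring
  rw [this]
  exact I.neg_mem hb

theorem one_sq {p : ℕ} {I : Ideal (𝓞 K)} (hp : (p : 𝓞 K) ∈ I) {t : 𝓞 K} (ht : t - 1 ∈ I) :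
    t ^ p - 1 ∈ I ^ 2 := by
  have h1 : (∑ i ∈ Finset.range p, t ^ i) ∈ I := by
    rw [← Ideal.Quotient.eq_zero_iff_mem, map_sum]
    have h2 : Ideal.Quotient.mk I t = 1 := by
      rw [← map_one (Ideal.Quotient.mk I), Ideal.Quotient.eq]
      exact ht
    have h3 : ∀ i ∈ Finset.range p, Ideal.Quotient.mk I (t ^ i) = 1 := fun i _ => by
      rw [map_pow, h2, one_pow]
    rw [Finset.sum_congr rfl h3, Finset.sum_const, Finset.card_range, nsmul_one,
      ← map_natCast (Ideal.Quotient.mk I), Ideal.Quotient.eq_zero_iff_mem]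
    exact hp
  rw [← mul_geom_sum, pow_two]
  exact Ideal.mul_mem_mul ht h1

end aux_one

theorem s_one : S_one := by
  intro K _ _ p hpf hp2 w w' e hww hne hnorm α k hα hα2 x hx
  have hp : p.Prime := hpf.out
  have hcop : IsCoprime w.asIdeal w'.asIdeal := one_coprime hne
  have hmax : w'.asIdeal.IsMaximal := w'.isMaximal
  have hpr : Prime w'.asIdeal := w'.prime
  have hp0 : (p : 𝓞 K) ∈ w'.asIdeal := by
    rw [← Ideal.dvd_span_singleton, ← hww]
    exact dvd_mul_left _ _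
  -- `p ^ 2` is not in the third power
  have hpp : (p : 𝓞 K) ^ 2 ∉ w'.asIdeal ^ 3 := by
    intro h
    rw [← Ideal.dvd_span_singleton, ← Ideal.span_singleton_pow, ← hww, mul_pow] at h
    have h1 : w'.asIdeal ^ 2 * w'.asIdeal ∣ w'.asIdeal ^ 2 * (w.asIdeal ^ e) ^ 2 := by
      rw [← pow_succ, mul_comm (w'.asIdeal ^ 2)]
      exact h
    have h2 : w'.asIdeal ∣ (w.asIdeal ^ e) ^ 2 :=
      (mul_dvd_mul_iff_left (pow_ne_zero 2 w'.ne_bot)).1 h1
    rw [← pow_mul] at h2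
    have h3 := hpr.dvd_of_dvd_pow h2
    have h4 : IsCoprime w'.asIdeal w'.asIdeal := by
      refine IsCoprime.of_isCoprime_of_dvd_left ?_ h3
      exact hcop
    rw [isCoprime_self] at h4
    exact hpr.not_isUnit h4
  -- the ring
  obtain ⟨I, hI⟩ : ∃ I : Ideal (𝓞 K), I = w'.asIdeal ^ 3 := ⟨_, rfl⟩
  have hcard : Nat.card (𝓞 K ⧸ I) = p ^ 3 := by
    have h1 : Ideal.absNorm I = p ^ 3 := by rw [hI, map_pow, hnorm]
    rw [← h1, Ideal.absNorm_apply, Submodule.cardQuot_apply]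
  have hfin : Finite (𝓞 K ⧸ I) := by
    refine Nat.finite_of_card_ne_zero ?_
    rw [hcard]
    exact pow_ne_zero _ hp.ne_zero
  have hord : addOrderOf (1 : 𝓞 K ⧸ I) = p ^ 3 := by
    refine addOrderOf_eq_prime_pow ?_ ?_
    · rw [nsmul_one, ← map_natCast (Ideal.Quotient.mk I), Ideal.Quotient.eq_zero_iff_mem, hI]
      push_cast
      exact hpp
    · rw [nsmul_one, ← map_natCast (Ideal.Quotient.mk I), Ideal.Quotient.eq_zero_iff_mem, hI]
      push_cast
      exact Ideal.pow_mem_pow hp0 3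
  have hchar : CharP (𝓞 K ⧸ I) (p ^ 3) := by
    rw [← hord]
    exact CharP.addOrderOf_one _
  have hcyc : IsCyclic (𝓞 K ⧸ I)ˣ := by
    have : Fintype (𝓞 K ⧸ I) := Fintype.ofFinite _
    have hc : Fintype.card (𝓞 K ⧸ I) = p ^ 3 := by rw [← Nat.card_eq_fintype_card, hcard]
    have h1 := ZMod.isCyclic_units_of_prime_pow p hp hp2 3
    exact (Units.mapEquiv (ZMod.ringEquiv (𝓞 K ⧸ I) hc).toMulEquiv).isCyclic.1 h1
  -- units
  have hcop3 : IsCoprime w.asIdeal I := by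
    rw [hI]
    exact hcop.pow_right
  have hua : IsUnit (Ideal.Quotient.mk I α) := by
    refine one_unit ?_
    rw [hα]
    exact hcop3.pow_left
  have hux : IsUnit (Ideal.Quotient.mk I x) := by
    refine one_unit ?_
    rw [hI]
    exact hx.pow_right
  obtain ⟨u, hu⟩ := hua
  obtain ⟨v, hv⟩ := hux
  -- `α` is not a `p`-th power
  have hnot : ∀ z : (𝓞 K ⧸ I)ˣ, u ≠ z ^ p := by
    intro z hz
    obtain ⟨y, hy⟩ := Ideal.Quotient.mk_surjective (z : 𝓞 K ⧸ I)
    have h1 : α - y ^ p ∈ w'.asIdeal ^ 3 := by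
      rw [← hI, ← Ideal.Quotient.eq, map_pow, hy, ← hu, hz]
      simp
    have h32 : w'.asIdeal ^ 3 ≤ w'.asIdeal ^ 2 := Ideal.pow_le_pow_right (by norm_num)
    have h31 : w'.asIdeal ^ 3 ≤ w'.asIdeal := Ideal.pow_le_self (by norm_num)
    -- `y` is not in `w'`
    have hy0 : y ∉ w'.asIdeal := by
      intro h
      have h2 : α ∈ w'.asIdeal := by
        have h3 : y ^ p ∈ w'.asIdeal := Ideal.pow_mem_of_mem _ h p hp.pos
        have h4 := w'.asIdeal.add_mem (h31 h1) h3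
        rwa [sub_add_cancel] at h4
      rw [← Ideal.dvd_span_singleton, hα] at h2
      have h3 := hpr.dvd_of_dvd_pow h2
      have h4 : IsCoprime w'.asIdeal w'.asIdeal := IsCoprime.of_isCoprime_of_dvd_left hcop h3
      rw [isCoprime_self] at h4
      exact hpr.not_isUnit h4
    have hy1 : y ^ (p - 1) - 1 ∈ w'.asIdeal := by
      have hcw : Nat.card (𝓞 K ⧸ w'.asIdeal) = p := by
        rw [← hnorm, Ideal.absNorm_apply, Submodule.cardQuot_apply]
      have hfw : Finite (𝓞 K ⧸ w'.asIdeal) := by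
        refine Nat.finite_of_card_ne_zero ?_
        rw [hcw]
        exact hp.ne_zero
      letI : Field (𝓞 K ⧸ w'.asIdeal) := Ideal.Quotient.field _
      letI : Fintype (𝓞 K ⧸ w'.asIdeal) := Fintype.ofFinite _
      have hcf : Fintype.card (𝓞 K ⧸ w'.asIdeal) = p := by
        rw [← Nat.card_eq_fintype_card, hcw]
      have h2 : Ideal.Quotient.mk w'.asIdeal y ≠ 0 := by
        rw [Ne, Ideal.Quotient.eq_zero_iff_mem]
        exact hy0
      have h3 := FiniteField.pow_card_sub_one_eq_one (Ideal.Quotient.mk w'.asIdeal y) h2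
      rw [hcf] at h3
      rw [← Ideal.Quotient.eq_zero_iff_mem, map_sub, map_pow, map_one, h3, sub_self]
    have hy2 : (y ^ (p - 1)) ^ p - 1 ∈ w'.asIdeal ^ 2 := one_sq hp0 hy1
    apply hα2
    have h5 : α ^ (p - 1) - (y ^ p) ^ (p - 1) ∈ w'.asIdeal ^ 2 := by
      obtain ⟨c, hc⟩ := sub_dvd_pow_sub_pow α (y ^ p) (p - 1)
      rw [hc]
      exact Ideal.mul_mem_right _ _ (h32 h1)
    have h6 : (y ^ p) ^ (p - 1) = (y ^ (p - 1)) ^ p := by rw [← pow_mul, ← pow_mul, mul_comm]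
    rw [h6] at h5
    have h7 := (w'.asIdeal ^ 2).add_mem h5 hy2
    rwa [sub_add_sub_cancel] at h7
  -- the generator
  obtain ⟨g, hg⟩ := hcyc.exists_generator
  have hg' : ∀ z : (𝓞 K ⧸ I)ˣ, ∃ n : ℕ, g ^ n = z := by
    intro z
    have h1 := hg z
    rw [← mem_powers_iff_mem_zpowers] at h1
    exact Submonoid.mem_powers_iff z g |>.1 h1
  obtain ⟨a, ha⟩ := hg' u
  obtain ⟨c, hc⟩ := hg' v
  have hpa : ¬ p ∣ a := by
    rintro ⟨b, rfl⟩
    apply hnot (g ^ b)
    rw [← ha, ← pow_mul, mul_comm]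
  obtain ⟨i, hi⟩ : ∃ i : ℕ, p ∣ c + a * i := by
    refine ⟨(-(c : ZMod p) * (a : ZMod p)⁻¹).val, ?_⟩
    rw [← ZMod.natCast_eq_zero_iff]
    push_cast
    rw [ZMod.natCast_val, ZMod.cast_id', id]
    have ha0 : (a : ZMod p) ≠ 0 := by
      rw [Ne, ZMod.natCast_eq_zero_iff]
      exact hpa
    field_simp
    ring
  obtain ⟨s, hs⟩ := hi
  obtain ⟨y, hy⟩ := Ideal.Quotient.mk_surjective ((g ^ s : (𝓞 K ⧸ I)ˣ) : 𝓞 K ⧸ I)
  refine ⟨α ^ i, y, k * i, ?_, ?_⟩
  · rw [← Ideal.span_singleton_pow, hα, ← pow_mul]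
  · rw [← hI, ← Ideal.Quotient.eq, map_mul, map_pow, map_pow, hy, ← hu, ← hv, ← Units.val_pow_eq_pow_val,
      ← Units.val_mul, ← Units.val_pow_eq_pow_val, ← ha, ← hc, ← pow_mul, ← pow_add, ← pow_mul, hs,
      mul_comm p s]

end Pool.Agent.H517.D
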