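import Pool.Agent.H517.D.Def

/-!
# Density of the tame primes which can be added: part RK
-/

set_option autoImplicit false
set_option linter.unusedSectionVars false

namespace Pool.Agent.H517.D

open NumberField IsDedekindDomain Filter Topology Pool.Agent.W401.Cheb


/-

RK. Units of a number field modulo p-th powers: index p^(rank + δ), δ = 1 iff ζ_p ∈ K. By Dirichlet (Mathlib: NumberField.Units.exist_unique_eq_mul_prod: u = ζ * ∏ fundSystem i ^ (e i) with unique (ζ, e) ∈ torsion K × (Fin rank → ℤ)), the group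
(𝓞 K)ˣ is isomorphic to torsion × ℤ^rank (or at least: the map is a bijection which is multiplicative), torsion is finite cyclic (instance). For a finite cyclic group T the index of the p-th powers is the
number of elements of T with t^p = 1, i.e. p if p ∣ card T and 1 otherwise; p ∣ card T iff there is a unit of order p iff K contains a primitive p-th root of unity. Index of the p-th powers in a product: product of the
indices; in Multiplicative ℤ it is p. (Possible route: the homomorphism to (T / T^p) × (Fin rank → ZMod p), u ↦ (class of ζ, e mod p), is surjective with kernel the p-th powers; Subgroup.index_ker.)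
(For `zpow_red` etc. see Pool.Agent.NH7.GU.UntP, library file R_pool_sql_team_seeded_3dad9d7b/NH7/GU/UntP.lean, which proves the upper bound.)

-/
namespace RkL

open NumberField.Units

variable (K : Type) [Field K] [NumberField K]

/-- Dirichlet's theorem as a homomorphism -/
noncomputable def Psi : (torsion K) × Multiplicative (Fin (rank K) → ℤ) →* (𝓞 K)ˣ where
  toFun x := (x.1 : (𝓞 K)ˣ) * ∏ i, fundSystem K i ^ (Multiplicative.toAdd x.2 i)
  map_one' := by simp
  map_mul' := by
    rintro ⟨ζ, e⟩ ⟨ζ', e'⟩
    simp only [Prod.mk_mul_mk, Subgroup.coe_mul, toAdd_mul, Pi.add_apply, zpow_add,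
      Finset.prod_mul_distrib]
    exact mul_mul_mul_comm _ _ _ _

theorem Psi_bij : Function.Bijective (Psi K) := by
  constructor
  · intro x y h
    obtain ⟨z, -, hz⟩ := exist_unique_eq_mul_prod K (Psi K x)
    have h1 : ((x.1, Multiplicative.toAdd x.2) : torsion K × (Fin (rank K) → ℤ)) = z := hz _ rfl
    have h2 : ((y.1, Multiplicative.toAdd y.2) : torsion K × (Fin (rank K) → ℤ)) = z := hz _ h
    have h3 := h1.trans h2.symm
    rw [Prod.mk.injEq] at h3
    exact Prod.ext h3.1 (Multiplicative.toAdd.injective h3.2)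
  · intro x
    obtain ⟨z, hz, -⟩ := exist_unique_eq_mul_prod K x
    exact ⟨(z.1, Multiplicative.ofAdd z.2), hz.symm⟩

theorem pw_map {A G : Type} [CommGroup A] [CommGroup G] (e : A ≃* G) (p : ℕ) :
    (pw G p).index = (pw A p).index := by
  have h : pw G p = (pw A p).map (e : A →* G) := by
    ext x
    constructor
    · rintro ⟨y, rfl⟩
      refine ⟨(e.symm y) ^ p, ⟨e.symm y, rfl⟩, ?_⟩
      show e ((e.symm y) ^ p) = y ^ p
      rw [map_pow, e.apply_symm_apply]
    · rintro ⟨_, ⟨y, rfl⟩, rfl⟩
      refine ⟨e y, ?_⟩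
      show (e y) ^ p = e (y ^ p)
      rw [map_pow]
  rw [h, Subgroup.index_map_equiv]

theorem pw_prod (A B : Type) [CommGroup A] [CommGroup B] (p : ℕ) :
    (pw (A × B) p).index = (pw A p).index * (pw B p).index := by
  have h : pw (A × B) p = (pw A p).prod (pw B p) := by
    ext ⟨x, y⟩
    rw [Subgroup.mem_prod]
    constructor
    · rintro ⟨⟨a, b⟩, h⟩
      have h1 : ((a ^ p, b ^ p) : A × B) = (x, y) := h
      rw [Prod.mk.injEq] at h1
      exact ⟨⟨a, h1.1⟩, ⟨b, h1.2⟩⟩
    · rintro ⟨⟨a, ha⟩, ⟨b, hb⟩⟩
      exact ⟨(a, b), Prod.ext ha hb⟩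
  rw [h, Subgroup.index_prod]

theorem pw_free (r p : ℕ) : (pw (Multiplicative (Fin r → ℤ)) p).index = p ^ r := by
  have h : pw (Multiplicative (Fin r → ℤ)) p =
      AddSubgroup.toSubgroup (nsmulAddMonoidHom (α := (Fin r → ℤ)) p).range := by
    ext x
    rfl
  rw [h, AddSubgroup.index_toSubgroup, AddSubgroup.index_range_nsmul, Module.finrank_fin_fun]

theorem pw_tor (p : ℕ) [hp : Fact p.Prime] : (pw (torsion K) p).index = p ^ del p K := by
  rw [IsCyclic.index_powMonoidHom_range]
  have hT : Nat.card (torsion K) = torsionOrder K := rfl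
  unfold del
  split_ifs with h
  · obtain ⟨ζ, hζ⟩ := h
    have : NeZero p := ⟨hp.out.ne_zero⟩
    have h1 := dvd_torsionOrder_of_isPrimitiveRoot hζ
    rw [hT, pow_one]
    exact Nat.gcd_eq_right h1
  · rw [pow_zero]
    refine Nat.Coprime.symm ((Nat.Prime.coprime_iff_not_dvd hp.out).2 fun hd => h ?_)
    obtain ⟨μ, hμ⟩ := exists_prime_orderOf_dvd_card' p hd
    rw [← IsPrimitiveRoot.iff_orderOf, ← IsPrimitiveRoot.coe_submonoidClass_iff,
      ← IsPrimitiveRoot.coe_units_iff] at hμ
    exact ⟨_, hμ.map_of_injective (FaithfulSMul.algebraMap_injective (𝓞 K) K)⟩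

end RkL

open RkL in
theorem s_rk : S_rk := by
  intro K _ _ p _
  rw [pw_map (MulEquiv.ofBijective (Psi K) (Psi_bij K)) p, pw_prod, pw_tor, pw_free, ← pow_add,
    add_comm]

end Pool.Agent.H517.D
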